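import Mathlib
import Pool.Prelude.Def_F_458e953d
import Pool.Agent.Helper22.OracleTools

set_option autoImplicit false

/-!
# Oracles whose bits are looked up in a hidden set

`Xo act C` answers a query `z` either by a constant or by one membership query to `C`, as told by
the fixed function `act`. All brute force search over hypothetical `C` can be put in `act`.
-/

namespace Pool.Agent.PudOr

open N68a2faeb N793a5b8e N487b59b3 Pool.Agent.Helper22

/-- `act z = inl b`: answer `b`; `act z = inr q`: answer `C q`. -/
abbrev Act : Type := List Bool → Bool ⊕ List Bool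

/-- the answer given by an action -/
def look (C : Oracle) : Bool ⊕ List Bool → Bool
  | .inl b => b
  | .inr q => C q

/-- the oracle -/
def Xo (act : Act) (C : Oracle) : Oracle := fun z => look C (act z)

/-- `act` on words shorter than `n` -/
def trunc (act : Act) (n : ℕ) : Act := fun z => if z.length < n then act z else .inl false

/-- `act` asks only words not longer than the query -/
def Short (act : Act) : Prop := ∀ z q, act z = .inr q → q.length ≤ z.length

/-- agreement on all words of length at most `n` -/
def Agree (n : ℕ) (C C' : Oracle) : Prop := ∀ q : List Bool, q.length ≤ n → C q = C' q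

/-- a strategy: the next action from the answers obtained so far (latest first) -/
abbrev Strat : Type := List Bool → Bool ⊕ List Bool

/-- the first `n` answers -/
def sAns (σ : Strat) (C : Oracle) : ℕ → List Bool
  | 0 => []
  | n + 1 => look C (σ (sAns σ C n)) :: sAns σ C n

section

variable {α β : Type} [N487b59b3 α] [N487b59b3 β]

/-- the procedure `M` on input `a` as a strategy -/
def simStrat (act : Act) (M : OracleProc α β) (a : α) : Strat := fun ans => act (M.query (a, ans))

theorem sAns_sim (act : Act) (M : OracleProc α β) (a : α) (C : Oracle) (n : ℕ) :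
    sAns (simStrat act M a) C n = M.answers (Xo act C) a n := by
  induction n with
  | zero => rfl
  | succ n ih => rw [sAns, ih]; rfl

/-- `N` bounds the number of queries of `M` on `a`, and they are shorter than `N` -/
def QB (M : OracleProc α β) (a : α) (N : ℕ) : Prop :=
  (M.clock a).length ≤ N ∧ ∀ ans : List Bool, ans.length ≤ (M.clock a).length →
    (M.query (a, ans)).length < N

/-- the words asked to `C` when `M` runs on `a` -/
def used (act : Act) (M : OracleProc α β) (C : Oracle) (a : α) : List (List Bool) :=
  (List.range (M.clock a).length).filterMap fun n =>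
    (act (M.query (a, M.answers (Xo act C) a n))).getRight?

end

/-! ## Scales and conditions -/

/-- the lengths of the scales -/
def sc : ℕ → ℕ
  | 0 => 2
  | j + 1 => 2 ^ (sc j + 2)

/-- the family of a scale; every family occurs infinitely often -/
def fam (j : ℕ) : ℕ := (Nat.unpair j).1

/-- `C` has a word of length `sc j`, and no two of them are `0 0 y` and `0 1 y'` -/
def AbsOK (C : Oracle) (j : ℕ) : Prop :=
  (∃ q : List Bool, q.length = sc j ∧ C q = true) ∧
  ¬ ((∃ y : List Bool, y.length + 2 = sc j ∧ C (false :: false :: y) = true) ∧
    ∃ y : List Bool, y.length + 2 = sc j ∧ C (false :: true :: y) = true)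

/-- `C` has no word `1 y` of length `sc j` -/
def Prot (C : Oracle) (j : ℕ) : Prop :=
  ∀ y : List Bool, y.length + 1 = sc j → C (true :: y) = false

/-- a condition: `m` families are protected from scale `J` on, and the words shorter than `sc J`
are known -/
structure Cond where
  m : ℕ
  J : ℕ
  pos : List (List Bool)

/-- compatibility with a condition -/
def Cond.Comp (p : Cond) (C : Oracle) : Prop :=
  (∀ q : List Bool, q.length < sc p.J → (C q = true ↔ q ∈ p.pos)) ∧
  ∀ j, p.J ≤ j → AbsOK C j ∧ (fam j < p.m → Prot C j)

instance : Countable Cond := by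
  let F : Cond → ℕ × ℕ × List (List Bool) := fun p => (p.m, p.J, p.pos)
  have hF : Function.Injective F := by
    rintro ⟨m, J, pos⟩ ⟨m', J', pos'⟩ h
    simp only [F, Prod.mk.injEq] at h
    obtain ⟨rfl, rfl, rfl⟩ := h
    rfl
  exact hF.countable

instance : Nonempty Cond := ⟨⟨0, 0, []⟩⟩

/-- `C` is generic: every local `Π₁` statement from the countable family that is true for `C` is
true for all oracles compatible with some condition of the sequence -/
structure Generic {ι : Type} (P : ι → List Bool → Oracle → Prop) (C : Oracle) where
  p : ℕ → Cond
  comp : ∀ k, (p k).Comp C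
  anti : ∀ k C', (p (k + 1)).Comp C' → (p k).Comp C'
  J_mono : ∀ k, (p k).J ≤ (p (k + 1)).J
  m_le : ∀ k, k ≤ (p k).m
  force : ∀ i, (∀ x, P i x C) → ∃ k, ∀ C', (p k).Comp C' → ∀ x, P i x C'

/-! ## Relativized search problems and pairs -/

/-- A total NP search problem relative to the oracle `X`. -/
structure TFNPo (X : Oracle) where
  R : OracleProc (List Bool × List Bool) Bool
  p : Polynomial ℕ
  total : ∀ x, ∃ y : List Bool, y.length ≤ p.eval x.length ∧ R.run X (x, y) = true

/-- many-one reducibility of total search problems relative to `X` -/
def TFNPo.Reduces {X : Oracle} (S T : TFNPo X) : Prop :=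
  ∃ (f : OracleProc (List Bool) (List Bool)) (g : OracleProc (List Bool × List Bool) (List Bool)),
    ∀ x y, y.length ≤ T.p.eval (f.run X x).length → T.R.run X (f.run X x, y) = true →
      (g.run X (x, y)).length ≤ S.p.eval x.length ∧ S.R.run X (x, g.run X (x, y)) = true

/-- completeness -/
def TFNPo.IsComplete {X : Oracle} (T : TFNPo X) : Prop := ∀ S : TFNPo X, S.Reduces T

/-- `(A, B)` is a disjoint pair of languages of NP relative to `X`. -/
def DisjointNPo (X : Oracle) (A B : DecisionProblem) : Prop :=
  A ∈ NPo X ∧ B ∈ NPo X ∧ ∀ x, ¬ (A x = true ∧ B x = true)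

/-- `(A, B)` is a complete disjoint NP-pair relative to `X`. -/
def CompletePair (X : Oracle) (A B : DecisionProblem) : Prop :=
  DisjointNPo X A B ∧ ∀ A' B', DisjointNPo X A' B' →
    ∃ f : OracleProc (List Bool) (List Bool), ∀ x,
      (A' x = true → A (f.run X x) = true) ∧ (B' x = true → B (f.run X x) = true)

end Pool.Agent.PudOr
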