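import Mathlib
import Pool.Agent.PudOr.Defs

set_option autoImplicit false

/-!
# The functionals to be coded in the action function
-/

namespace Pool.Agent.PudOr

open N68a2faeb N793a5b8e N487b59b3 Pool.Agent.Helper22
open scoped Classical

/-- a verifier with its witness bound -/
abbrev Ver : Type := OracleProc (List Bool × List Bool) Bool × Polynomial ℕ

/-- acceptance by a verifier, as a property of the hidden set -/
def Acc (act : Act) (e : Ver) (x : List Bool) (C : Oracle) : Prop := Accepts e.1 e.2 (Xo act C) x

instance instNonemptyProc {α β : Type} [N487b59b3 α] [N487b59b3 β] [Nonempty β] :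
    Nonempty (OracleProc α β) := by
  obtain ⟨b⟩ := ‹Nonempty β›
  exact ⟨⟨fun _ => [], fun _ => [], fun _ => b, (isPolyTime_iff _).2 (FP.const _),
    (isPolyTime_iff _).2 (FP.const _), (isPolyTime_iff _).2 (FP.const _)⟩⟩

theorem exists_enumTF : ∃ f : ℕ → Ver × Cond, Function.Surjective f := exists_surjective_nat _
theorem exists_enumDP : ∃ f : ℕ → (Ver × Ver) × Cond, Function.Surjective f :=
  exists_surjective_nat _

/-- enumeration of the search problems and conditions -/
noncomputable def enumTF : ℕ → Ver × Cond := exists_enumTF.choose
theorem enumTF_surj : Function.Surjective enumTF := exists_enumTF.choose_spec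
/-- enumeration of the pairs of verifiers and conditions -/
noncomputable def enumDP : ℕ → (Ver × Ver) × Cond := exists_enumDP.choose
theorem enumDP_surj : Function.Surjective enumDP := exists_enumDP.choose_spec

/-- `q` is one of the words that the condition excludes by protection -/
def IsZ (c : Cond) (q : List Bool) : Prop :=
  ∃ j, c.J ≤ j ∧ fam j < c.m ∧ ∃ y, q = true :: y ∧ y.length + 1 = sc j

/-- specification of a procedure driven by the functional `th` -/
def Drives (act : Act) (D : OracleProc (List Bool) Bool)
    (th : Act → List Bool → Strat × (Oracle → Bool)) : Prop :=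
  ∀ (C : Oracle) (v : List Bool),
    (∀ ans q, (th (trunc act v.length) v).1 ans = .inr q → q.length ≤ v.length) →
    (∀ C', sAns (th (trunc act v.length) v).1 C' v.length =
      sAns (th (trunc act v.length) v).1 C v.length →
      (th (trunc act v.length) v).2 C' = (th (trunc act v.length) v).2 C) →
    D.run (Xo act C) v = (th (trunc act v.length) v).2 C

/-! ## The languages `T` -/

/-- the language of family `i`, from scale `J₀` on -/
noncomputable def tl (i J₀ : ℕ) (C : Oracle) : DecisionProblem := fun x =>
  decide (∃ j, J₀ ≤ j ∧ fam j = i ∧ x.length = sc j ∧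
    ∃ y : List Bool, y.length + 2 = sc j ∧ C (false :: true :: y) = true)

/-- verifier of the language `tl i J₀` (`b = true`) and of its complement (`b = false`) -/
noncomputable def thT (i J₀ : ℕ) (b : Bool) (_ : Act) (v : List Bool) :
    Strat × (Oracle → Bool) :=
  (fun _ => if (cs v).length + 2 ≤ v.length then .inr (false :: b :: cs v) else .inl false,
   fun C => if (∃ j, J₀ ≤ j ∧ fam j = i ∧ (cf v).length = sc j) then
      decide ((cs v).length + 2 = (cf v).length) && C (false :: b :: cs v) else !b)

/-! ## The universal search problem -/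

/-- the instance `z = ((un c, x), t)` is confirmed -/
def ConfTF (act : Act) (z : List Bool) : Prop :=
  let e := enumTF (cf (cf z)).length
  let x := cs (cf z)
  (∀ w : List Bool, w.length ≤ e.1.2.eval x.length → w.length ≤ z.length ∧
    QB e.1.1 (x, w) z.length) ∧ sc e.2.J ≤ z.length ∧
  ∀ C', e.2.Comp C' → Acc (trunc act z.length) e.1 x C'

/-- the verifier of the universal search problem, on `v = (z, y)` -/
noncomputable def thTF (act : Act) (v : List Bool) : Strat × (Oracle → Bool) :=
  let z := cf v
  let e := enumTF (cf (cf z)).length
  let x := cs (cf z)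
  match cs v with
  | [] => (fun _ => .inl false, fun _ => decide (¬ ConfTF act z))
  | true :: q => (fun _ => .inr q, fun C => decide (¬ ConfTF act z ∨
      (q.length < sc e.2.J ∧ ¬ (C q = true ↔ q ∈ e.2.pos)) ∨ (C q = true ∧ IsZ e.2 q)))
  | false :: w => (simStrat act e.1.1 (x, w), fun C => decide (¬ ConfTF act z ∨
      (w.length ≤ e.1.2.eval x.length ∧ e.1.1.run (Xo act C) (x, w) = true)))

/-! ## The universal pair -/

/-- all words of length `n` -/
def words : ℕ → List (List Bool)
  | 0 => [[]]
  | n + 1 => (words n).map (List.cons false) ++ (words n).map (List.cons true)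

/-- all words `q` with `2 ^ q.length ≤ A` -/
def shortList (A : ℕ) : List (List Bool) := (List.range (Nat.log 2 A + 1)).flatMap words

/-- the bound for short words -/
def sB (z : List Bool) : ℕ := 16 * (z.length + 1)

/-- the instance `z = ((un c, x), t)` is confirmed -/
def ConfDP (act : Act) (z : List Bool) : Prop :=
  let e := enumDP (cf (cf z)).length
  let x := cs (cf z)
  (∀ w : List Bool, w.length ≤ e.1.1.2.eval x.length → QB e.1.1.1 (x, w) z.length) ∧
  (∀ w : List Bool, w.length ≤ e.1.2.2.eval x.length → QB e.1.2.1 (x, w) z.length) ∧
  2 ^ sc e.2.J ≤ z.length ∧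
  ∀ C', e.2.Comp C' → ¬ (Acc (trunc act z.length) e.1.1 x C' ∧ Acc (trunc act z.length) e.1.2 x C')

/-- the verifier of side `b` of an element of `Ver × Ver` -/
def side (b : Bool) (e : Ver × Ver) : Ver := if b then e.1 else e.2

/-- what the verifier of side `b` of the universal pair checks for the instance `z` and the
witness `w` -/
def PredDP (b : Bool) (act : Act) (z w : List Bool) (C : Oracle) : Prop :=
  let e := enumDP (cf (cf z)).length
  let x := cs (cf z)
  ConfDP act z ∧ w.length ≤ (side b e.1).2.eval x.length ∧
  (∀ q : List Bool, 2 ^ q.length ≤ sB z → (q.length < sc e.2.J → (C q = true ↔ q ∈ e.2.pos)) ∧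
    (IsZ e.2 q → C q = false)) ∧
  (side b e.1).1.run (Xo act C) (x, w) = true ∧
  ∀ q ∈ used act (side b e.1).1 C (x, w), IsZ e.2 q → C q = false

/-- the verifier of side `b` of the universal pair, on `v = ((z, w), pad)` -/
noncomputable def thDP (b : Bool) (act : Act) (v : List Bool) : Strat × (Oracle → Bool) :=
  let z := cf (cf v)
  let w := cs (cf v)
  let e := enumDP (cf (cf z)).length
  let x := cs (cf z)
  (fun ans => if h : ans.length < (shortList (sB z)).length then
      .inr ((shortList (sB z))[ans.length])
    else act ((side b e.1).1.query ((x, w),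
      ans.take (ans.length - (shortList (sB z)).length))),
   fun C => decide (PredDP b act z w C))

/-! ## The local statements to be decided by the generic set -/

/-- `e` presents a total search problem, at `x` -/
def PTot (act : Act) (e : Ver) (x : List Bool) (C : Oracle) : Prop := Acc act e x C

/-- `e` presents a disjoint pair, at `x` -/
def PDisj (act : Act) (e : Ver × Ver) (x : List Bool) (C : Oracle) : Prop :=
  ¬ (Acc act e.1 x C ∧ Acc act e.2 x C)

/-- `e` presents a language of NP ∩ coNP, at `x` -/
def PGood (act : Act) (e : Ver × Ver) (x : List Bool) (C : Oracle) : Prop :=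
  Acc act e.1 x C ↔ ¬ Acc act e.2 x C

/-- `f` reduces `tl i J₀` to the language presented by `e`, at `x` -/
def PRed (act : Act) (f : OracleProc (List Bool) (List Bool)) (i J₀ : ℕ) (e : Ver × Ver)
    (x : List Bool) (C : Oracle) : Prop :=
  (tl i J₀ C x = true → Acc act e.1 (f.run (Xo act C) x) C) ∧
  (tl i J₀ C x = false → Acc act e.2 (f.run (Xo act C) x) C)

end Pool.Agent.PudOr
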