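import Mathlib
import Pool.Agent.PudOr.Th

set_option autoImplicit false

/-!
# A1: an action function that drives countably many functionals
-/

namespace Pool.Agent.PudOr

open N68a2faeb N793a5b8e N487b59b3 Pool.Agent.Helper22
open scoped Classical

theorem a1_cfs_length (s : List Bool) : (cf s).length + (cs s).length ≤ s.length := by
  induction s using cf.induct with
  | case1 b l ih => simp only [cf, cs, List.length_cons]; omega
  | case2 s h =>
    match s with
    | [] => simp [cf, cs]
    | [true] => simp [cf, cs]
    | false :: l => simp [cf, cs]
    | true :: b :: l => exact absurd rfl (h b l)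

/-- clean up an action: questions longer than `n` are answered `false` -/
noncomputable def a1clean (n : ℕ) : Bool ⊕ List Bool → Bool ⊕ List Bool
  | .inl b => .inl b
  | .inr q => if q.length ≤ n then .inr q else .inl false

/-- one step of the recursion -/
noncomputable def a1step {ι : Type} (code : ι → ℕ)
    (Θ : ι → Act → List Bool → Strat × (Oracle → Bool)) (a : Act) : Act := fun z =>
  if h : ∃ i, code i = (cf (cf z)).length then
    if (cs z).length < (cs (cf z)).length then
      a1clean (cs (cf z)).length
        ((Θ h.choose (trunc a (cs (cf z)).length) (cs (cf z))).1 (cs z))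
    else .inl (decide (∃ C'' : Oracle,
      sAns (Θ h.choose (trunc a (cs (cf z)).length) (cs (cf z))).1 C'' (cs (cf z)).length = cs z ∧
      (Θ h.choose (trunc a (cs (cf z)).length) (cs (cf z))).2 C'' = true))
  else .inl false

theorem a1step_congr {ι : Type} (code : ι → ℕ)
    (Θ : ι → Act → List Bool → Strat × (Oracle → Bool)) (a b : Act) (z : List Bool)
    (h : ∀ w : List Bool, w.length < z.length → a w = b w) :
    a1step code Θ a z = a1step code Θ b z := by
  have hlen : (cs (cf z)).length ≤ z.length := by
    have h1 := a1_cfs_length z
    have h2 := a1_cfs_length (cf z)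
    omega
  have h1 : trunc a (cs (cf z)).length = trunc b (cs (cf z)).length := by
    funext w
    unfold trunc
    by_cases hw : w.length < (cs (cf z)).length
    · rw [if_pos hw, if_pos hw, h w (by omega)]
    · rw [if_neg hw, if_neg hw]
  unfold a1step
  rw [h1]

/-- the approximations -/
noncomputable def a1seq {ι : Type} (code : ι → ℕ)
    (Θ : ι → Act → List Bool → Strat × (Oracle → Bool)) : ℕ → Act
  | 0 => fun _ => .inl false
  | n + 1 => a1step code Θ (a1seq code Θ n)

theorem a1seq_stable {ι : Type} (code : ι → ℕ)
    (Θ : ι → Act → List Bool → Strat × (Oracle → Bool)) (n : ℕ) :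
    ∀ (m : ℕ) (z : List Bool), z.length < n → z.length < m →
      a1seq code Θ n z = a1seq code Θ m z := by
  induction n with
  | zero => intro m z h; omega
  | succ n ih =>
    intro m z hn hm
    obtain ⟨m, rfl⟩ : ∃ m', m = m' + 1 := ⟨m - 1, by omega⟩
    change a1step code Θ (a1seq code Θ n) z = a1step code Θ (a1seq code Θ m) z
    refine a1step_congr code Θ _ _ z fun w hw => ih m w (by omega) (by omega)

/-- the action function -/
noncomputable def a1act {ι : Type} (code : ι → ℕ)
    (Θ : ι → Act → List Bool → Strat × (Oracle → Bool)) : Act := fun z =>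
  a1seq code Θ (z.length + 1) z

theorem a1act_eq {ι : Type} (code : ι → ℕ)
    (Θ : ι → Act → List Bool → Strat × (Oracle → Bool)) (z : List Bool) :
    a1act code Θ z = a1step code Θ (a1act code Θ) z := by
  change a1step code Θ (a1seq code Θ z.length) z = _
  refine a1step_congr code Θ _ _ z fun w hw => ?_
  exact a1seq_stable code Θ _ _ w hw (Nat.lt_succ_self _)

theorem a1_sAns_length (σ : Strat) (C : Oracle) (n : ℕ) : (sAns σ C n).length = n := by
  induction n with
  | zero => rfl
  | succ n ih => rw [sAns, List.length_cons, ih]

theorem exists_act {ι : Type} [Countable ι] (Θ : ι → Act → List Bool → Strat × (Oracle → Bool)) :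
    ∃ act : Act, Short act ∧ ∀ i, ∃ D : OracleProc (List Bool) Bool, Drives act D (Θ i) := by
  obtain ⟨code, hcode⟩ := exists_injective_nat ι
  refine ⟨a1act code Θ, ?_, fun i => ?_⟩
  · intro z q hz
    rw [a1act_eq] at hz
    have hlen : (cs (cf z)).length ≤ z.length := by
      have h1 := a1_cfs_length z
      have h2 := a1_cfs_length (cf z)
      omega
    unfold a1step at hz
    split_ifs at hz with h1 h2
    generalize (Θ h1.choose (trunc (a1act code Θ) (cs (cf z)).length) (cs (cf z))).1 (cs z) = r
      at hz
    rcases r with b | q'
    · simp [a1clean] at hz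
    · simp only [a1clean] at hz
      split_ifs at hz with h3
      cases hz
      omega
  · refine ⟨⟨fun v => false :: v, fun p => cd (cd (un (code i)) p.1) p.2, fun p => p.2.headD false,
      (isPolyTime_iff _).2 (by fun_prop), (isPolyTime_iff _).2 (by fun_prop),
      (isPolyTime_iff _).2 (FP.headD (by fun_prop) _)⟩, ?_⟩
    intro C v hq hdet
    set act := a1act code Θ with hact
    set th := Θ i (trunc act v.length) v with hth
    set D : OracleProc (List Bool) Bool := ⟨fun v => false :: v,
      fun p => cd (cd (un (code i)) p.1) p.2, fun p => p.2.headD false,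
      (isPolyTime_iff _).2 (by fun_prop), (isPolyTime_iff _).2 (by fun_prop),
      (isPolyTime_iff _).2 (FP.headD (by fun_prop) _)⟩ with hD
    have hchoose : ∀ (c : ℕ) (hc : c = code i) (h : ∃ j, code j = c), h.choose = i := by
      intro c hc h
      exact hcode (h.choose_spec.trans hc)
    have hactq : ∀ ans : List Bool, act (cd (cd (un (code i)) v) ans) =
        if ans.length < v.length then a1clean v.length (th.1 ans)
        else .inl (decide (∃ C'' : Oracle, sAns th.1 C'' v.length = ans ∧ th.2 C'' = true)) := by
      intro ans
      rw [hact, a1act_eq, ← hact]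
      unfold a1step
      have h1 : (cf (cf (cd (cd (un (code i)) v) ans))).length = code i := by
        rw [cf_cd, cf_cd, un_length]
      have h2 : ∃ j, code j = (cf (cf (cd (cd (un (code i)) v) ans))).length := ⟨i, h1.symm⟩
      rw [dif_pos h2, hchoose _ h1 h2]
      simp only [cf_cd, cs_cd]
      rfl
    have hans : ∀ n, n ≤ v.length → D.answers (Xo act C) v n = sAns th.1 C n := by
      intro n
      induction n with
      | zero => intro _; rfl
      | succ n ih =>
        intro hn
        rw [OracleProc.answers, sAns, ih (by omega)]
        congr 1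
        change look C (act (cd (cd (un (code i)) v) (sAns th.1 C n))) = _
        rw [hactq, if_pos (by rw [a1_sAns_length]; omega)]
        rcases hr : th.1 (sAns th.1 C n) with b | q
        · rfl
        · have h3 := hq _ q hr
          simp only [a1clean]
          rw [if_pos h3]
    change (D.answers (Xo act C) v (v.length + 1)).headD false = th.2 C
    rw [OracleProc.answers, hans _ le_rfl, List.headD_cons]
    change look C (act (cd (cd (un (code i)) v) (sAns th.1 C v.length))) = _
    rw [hactq, if_neg (by rw [a1_sAns_length]; omega)]
    change decide _ = _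
    by_cases hp : th.2 C = true
    · rw [hp, decide_eq_true]
      exact ⟨C, rfl, hp⟩
    · rw [Bool.not_eq_true] at hp
      rw [hp, decide_eq_false]
      rintro ⟨C'', h1, h2⟩
      have h3 := hdet C'' h1
      rw [h2, hp] at h3
      exact absurd h3 (by decide)

end Pool.Agent.PudOr
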