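import Mathlib
import Pool.Agent.PudOr.Th

set_option autoImplicit false

/-!
# A2: facts on oracle procedures with oracle `Xo act C`
-/

namespace Pool.Agent.PudOr

open N68a2faeb N793a5b8e N487b59b3 Pool.Agent.Helper22

section

variable {α β γ : Type} [N487b59b3 α] [N487b59b3 β] [N487b59b3 γ]

/-- change of input -/
def comap (D : OracleProc α β) (g : γ → α) (hg : FP g) : OracleProc γ β where
  clock := fun c => D.clock (g c)
  query := fun c => D.query (g c.1, c.2)
  out := fun c => D.out (g c.1, c.2)
  clock_poly := (isPolyTime_iff _).2 (((isPolyTime_iff _).1 D.clock_poly).comp hg)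
  query_poly := (isPolyTime_iff _).2
    (((isPolyTime_iff _).1 D.query_poly).comp ((hg.comp FP.fst).pair FP.snd))
  out_poly := (isPolyTime_iff _).2
    (((isPolyTime_iff _).1 D.out_poly).comp ((hg.comp FP.fst).pair FP.snd))

theorem A2_comap_answers (D : OracleProc α β) (g : γ → α) (hg : FP g) (X : Oracle) (c : γ)
    (n : ℕ) : (comap D g hg).answers X c n = D.answers X (g c) n := by
  induction n with
  | zero => rfl
  | succ n ih => rw [OracleProc.answers, OracleProc.answers, ih]; rfl

theorem comap_run (D : OracleProc α β) (g : γ → α) (hg : FP g) (X : Oracle) (c : γ) :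
    (comap D g hg).run X c = D.run X (g c) := by
  rw [OracleProc.run, OracleProc.run, A2_comap_answers]; rfl

/-- a polynomial time function as a procedure -/
def pureProc (g : α → β) (hg : FP g) : OracleProc α β where
  clock := fun _ => []
  query := fun _ => []
  out := fun c => g c.1
  clock_poly := (isPolyTime_iff _).2 (FP.const _)
  query_poly := (isPolyTime_iff _).2 (FP.const _)
  out_poly := (isPolyTime_iff _).2 (hg.comp FP.fst)

theorem pureProc_run (g : α → β) (hg : FP g) (X : Oracle) (a : α) :
    (pureProc g hg).run X a = g a := rfl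

theorem QB.mono {M : OracleProc α β} {a : α} {N N' : ℕ} (h : QB M a N) (hN : N ≤ N') :
    QB M a N' :=
  ⟨h.1.trans hN, fun ans ha => (h.2 ans ha).trans_le hN⟩

theorem answers_trunc (act : Act) (M : OracleProc α β) {a : α} {N : ℕ} (h : QB M a N) (C : Oracle)
    {n : ℕ} (hn : n ≤ (M.clock a).length) :
    M.answers (Xo (trunc act N) C) a n = M.answers (Xo act C) a n := by
  induction n with
  | zero => rfl
  | succ n ih =>
    rw [OracleProc.answers, OracleProc.answers, ih (by omega)]
    have h1 : (M.query (a, M.answers (Xo act C) a n)).length < N :=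
      h.2 _ (by rw [OracleProc.answers_length]; omega)
    rw [Xo, Xo, trunc, if_pos h1]

theorem run_trunc (act : Act) (M : OracleProc α β) {a : α} {N : ℕ} (h : QB M a N) (C : Oracle) :
    M.run (Xo (trunc act N) C) a = M.run (Xo act C) a := by
  rw [OracleProc.run, OracleProc.run, answers_trunc act M h C le_rfl]

theorem A2_answers_local {act : Act} (hs : Short act) (M : OracleProc α β) {a : α} {N : ℕ}
    (h : QB M a N) {C C' : Oracle} (hC : Agree N C C') {n : ℕ} (hn : n ≤ (M.clock a).length) :
    M.answers (Xo act C) a n = M.answers (Xo act C') a n := by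
  induction n with
  | zero => rfl
  | succ n ih =>
    rw [OracleProc.answers, OracleProc.answers, ih (by omega)]
    have h1 : (M.query (a, M.answers (Xo act C') a n)).length < N :=
      h.2 _ (by rw [OracleProc.answers_length]; omega)
    have h2 : Xo act C (M.query (a, M.answers (Xo act C') a n)) =
        Xo act C' (M.query (a, M.answers (Xo act C') a n)) := by
      rw [Xo, Xo]
      rcases hz : act (M.query (a, M.answers (Xo act C') a n)) with b | q
      · rfl
      · exact hC q ((hs _ _ hz).trans h1.le)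
    rw [h2]

theorem run_local {act : Act} (hs : Short act) (M : OracleProc α β) {a : α} {N : ℕ}
    (h : QB M a N) {C C' : Oracle} (hC : Agree N C C') :
    M.run (Xo act C) a = M.run (Xo act C') a := by
  rw [OracleProc.run, OracleProc.run, A2_answers_local hs M h hC le_rfl]

theorem used_length (act : Act) (M : OracleProc α β) (C : Oracle) (a : α) :
    (used act M C a).length ≤ (M.clock a).length := by
  unfold used
  refine (List.length_filterMap_le _ _).trans ?_
  rw [List.length_range]

theorem mem_used (act : Act) (M : OracleProc α β) (C : Oracle) (a : α) (q : List Bool) :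
    q ∈ used act M C a ↔ ∃ n < (M.clock a).length,
      act (M.query (a, M.answers (Xo act C) a n)) = .inr q := by
  simp only [used, List.mem_filterMap, List.mem_range, Sum.getRight?_eq_some_iff]

theorem answers_used (act : Act) (M : OracleProc α β) {C C' : Oracle} {a : α}
    (h : ∀ q ∈ used act M C a, C' q = C q) {n : ℕ} (hn : n ≤ (M.clock a).length) :
    M.answers (Xo act C') a n = M.answers (Xo act C) a n := by
  induction n with
  | zero => rfl
  | succ n ih =>
    rw [OracleProc.answers, OracleProc.answers, ih (by omega)]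
    have h2 : Xo act C' (M.query (a, M.answers (Xo act C) a n)) =
        Xo act C (M.query (a, M.answers (Xo act C) a n)) := by
      rw [Xo, Xo]
      rcases hz : act (M.query (a, M.answers (Xo act C) a n)) with b | q
      · rfl
      · exact h q ((mem_used act M C a q).2 ⟨n, by omega, hz⟩)
    rw [h2]

theorem run_used (act : Act) (M : OracleProc α β) {C C' : Oracle} {a : α}
    (h : ∀ q ∈ used act M C a, C' q = C q) :
    M.run (Xo act C') a = M.run (Xo act C) a := by
  rw [OracleProc.run, OracleProc.run, answers_used act M h le_rfl]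

theorem A2_answers_drop (M : OracleProc α β) (X : Oracle) (a : α) (m k : ℕ) :
    (M.answers X a (m + k)).drop k = M.answers X a m := by
  induction k with
  | zero => rfl
  | succ k ih =>
    rw [← add_assoc, OracleProc.answers, List.drop_succ_cons, ih]

theorem A2_answers_le (M : OracleProc α β) {X Y : Oracle} {a : α} {n m : ℕ} (hm : m ≤ n)
    (h : M.answers X a n = M.answers Y a n) : M.answers X a m = M.answers Y a m := by
  obtain ⟨k, rfl⟩ := Nat.exists_eq_add_of_le hm
  rw [← A2_answers_drop M X a m k, ← A2_answers_drop M Y a m k, h]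

/-- equal answers mean agreement on the words used -/
theorem used_of_answers (act : Act) (M : OracleProc α β) {C C' : Oracle} {a : α} {n : ℕ}
    (hn : (M.clock a).length ≤ n)
    (h : M.answers (Xo act C') a n = M.answers (Xo act C) a n) :
    (∀ q ∈ used act M C a, C' q = C q) ∧ used act M C' a = used act M C a ∧
      M.run (Xo act C') a = M.run (Xo act C) a := by
  have h1 : ∀ q ∈ used act M C a, C' q = C q := by
    intro q hq
    obtain ⟨m, hm, hz⟩ := (mem_used act M C a q).1 hq
    have h2 := A2_answers_le M (show m + 1 ≤ n by omega) h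
    rw [OracleProc.answers, OracleProc.answers, A2_answers_le M (show m ≤ n by omega) h,
      List.cons.injEq] at h2
    have h3 := h2.1
    rw [Xo, Xo, hz] at h3
    exact h3
  refine ⟨h1, ?_, run_used act M h1⟩
  unfold used
  apply List.filterMap_congr
  intro m hm
  rw [List.mem_range] at hm
  rw [A2_answers_le M (show m ≤ n by omega) h]

theorem used_trunc (act : Act) (M : OracleProc α β) {a : α} {N : ℕ} (h : QB M a N) (C : Oracle) :
    used (trunc act N) M C a = used act M C a := by
  unfold used
  apply List.filterMap_congr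
  intro n hn
  rw [List.mem_range] at hn
  rw [answers_trunc act M h C hn.le]
  have h1 : (M.query (a, M.answers (Xo act C) a n)).length < N :=
    h.2 _ (by rw [OracleProc.answers_length]; omega)
  rw [trunc, if_pos h1]

theorem trunc_trunc (act : Act) {N N' : ℕ} (h : N ≤ N') : trunc (trunc act N') N = trunc act N := by
  funext z
  unfold trunc
  split_ifs with h1 h2
  · rfl
  · exact absurd (h1.trans_le h) h2
  · rfl

end

theorem A2_QB_gen {α β : Type} [N487b59b3 α] [N487b59b3 β] (M : OracleProc α β) :
    ∃ B : ℕ → ℕ, PB B ∧ Monotone B ∧ ∀ (a : α) (N : ℕ), B (sz a) ≤ N → QB M a N := by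
  obtain ⟨B1, p1, m1, h1⟩ := ((isPolyTime_iff _).1 M.clock_poly).bound
  obtain ⟨B2, p2, m2, h2⟩ := ((isPolyTime_iff _).1 M.query_poly).bound
  refine ⟨fun n => B1 n + B2 (2 * n + 1 + 3 * B1 n) + 1, ?_, ?_, ?_⟩
  · exact (p1.add (PB.comp p2 ((((PB.const 2).mul PB.id).add (PB.const 1)).add
      ((PB.const 3).mul p1)))).add (PB.const 1)
  · intro n n' hnn
    have e1 := m1 hnn
    have e2 : B2 (2 * n + 1 + 3 * B1 n) ≤ B2 (2 * n' + 1 + 3 * B1 n') := m2 (by omega)
    show B1 n + B2 (2 * n + 1 + 3 * B1 n) + 1 ≤ B1 n' + B2 (2 * n' + 1 + 3 * B1 n') + 1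
    omega
  · intro a N hN
    have hN' : B1 (sz a) + B2 (2 * sz a + 1 + 3 * B1 (sz a)) + 1 ≤ N := hN
    have e1 := h1 a
    rw [sz_bits] at e1
    refine ⟨by omega, ?_⟩
    intro ans hans
    have e2 := h2 (a, ans)
    rw [sz_bits, sz_pair, sz_bits] at e2
    have e3 : B2 (2 * sz a + 1 + 3 * ans.length) ≤ B2 (2 * sz a + 1 + 3 * B1 (sz a)) :=
      m2 (by omega)
    omega

theorem QB_word {β : Type} [N487b59b3 β] (M : OracleProc (List Bool) β) :
    ∃ q : Polynomial ℕ, ∀ (x : List Bool) (N : ℕ), q.eval x.length ≤ N → QB M x N := by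
  obtain ⟨B, hB, _, h⟩ := A2_QB_gen M
  obtain ⟨q, hq⟩ : PB fun n => B (3 * n) := PB.comp hB ((PB.const 3).mul PB.id)
  refine ⟨q, fun x N hN => h x N ?_⟩
  rw [sz_bits]
  exact (hq x.length).trans hN

theorem QB_pair {β : Type} [N487b59b3 β] (M : OracleProc (List Bool × List Bool) β) :
    ∃ q : Polynomial ℕ, ∀ (x w : List Bool) (N : ℕ), q.eval (x.length + w.length) ≤ N →
      QB M (x, w) N := by
  obtain ⟨B, hB, mB, h⟩ := A2_QB_gen M
  obtain ⟨q, hq⟩ : PB fun n => B (6 * n + 1) :=
    PB.comp hB (((PB.const 6).mul PB.id).add (PB.const 1))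
  refine ⟨q, fun x w N hN => h (x, w) N ?_⟩
  rw [sz_pair, sz_bits, sz_bits]
  have e1 : B (2 * (3 * x.length) + 1 + 3 * w.length) ≤ B (6 * (x.length + w.length) + 1) :=
    mB (by omega)
  exact e1.trans ((hq (x.length + w.length)).trans hN)

/-- the bound for all witnesses -/
theorem QB_ver (e : Ver) : ∃ q : Polynomial ℕ, ∀ (x : List Bool) (N : ℕ), q.eval x.length ≤ N →
    ∀ w : List Bool, w.length ≤ e.2.eval x.length → w.length ≤ N ∧ QB e.1 (x, w) N := by
  obtain ⟨q₀, h⟩ := QB_pair e.1
  refine ⟨q₀.comp (Polynomial.X + e.2) + e.2, ?_⟩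
  intro x N hN w hw
  rw [Polynomial.eval_add, Polynomial.eval_comp, Polynomial.eval_add, Polynomial.eval_X] at hN
  refine ⟨by omega, h x w N ?_⟩
  have e1 : q₀.eval (x.length + w.length) ≤ q₀.eval (x.length + e.2.eval x.length) :=
    poly_mono q₀ (by omega)
  omega

/-- the output of a procedure is polynomially bounded, for all oracles -/
theorem out_bound (f : OracleProc (List Bool) (List Bool)) :
    ∃ q : Polynomial ℕ, ∀ (X : Oracle) (x : List Bool), (f.run X x).length ≤ q.eval x.length := by
  obtain ⟨B1, p1, m1, h1⟩ := ((isPolyTime_iff _).1 f.clock_poly).bound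
  obtain ⟨B3, p3, m3, h3⟩ := ((isPolyTime_iff _).1 f.out_poly).bound
  obtain ⟨q, hq⟩ : PB fun n => B3 (2 * (3 * n) + 1 + 3 * B1 (3 * n)) :=
    PB.comp p3 ((((PB.const 2).mul ((PB.const 3).mul PB.id)).add (PB.const 1)).add
      ((PB.const 3).mul (PB.comp p1 ((PB.const 3).mul PB.id))))
  refine ⟨q, fun X x => ?_⟩
  have e1 := h1 x
  rw [sz_bits, sz_bits] at e1
  have e2 := h3 (x, f.answers X x (f.clock x).length)
  rw [sz_bits, sz_pair, sz_bits, sz_bits, OracleProc.answers_length] at e2
  have e3 : B3 (2 * (3 * x.length) + 1 + 3 * (f.clock x).length) ≤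
      B3 (2 * (3 * x.length) + 1 + 3 * B1 (3 * x.length)) := m3 (by omega)
  have e4 : B3 (2 * (3 * x.length) + 1 + 3 * B1 (3 * x.length)) ≤ q.eval x.length := hq x.length
  have e5 : (f.run X x).length = (f.out (x, f.answers X x (f.clock x).length)).length := rfl
  omega

theorem acc_local {act : Act} (hs : Short act) (e : Ver) : ∃ q : Polynomial ℕ,
    ∀ (x : List Bool) (C C' : Oracle), Agree (q.eval x.length) C C' →
      (Acc act e x C ↔ Acc act e x C') := by
  obtain ⟨q, hq⟩ := QB_ver e
  refine ⟨q, fun x C C' h => ?_⟩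
  have h1 : ∀ w : List Bool, w.length ≤ e.2.eval x.length →
      e.1.run (Xo act C) (x, w) = e.1.run (Xo act C') (x, w) :=
    fun w hw => run_local hs e.1 (hq x _ le_rfl w hw).2 h
  constructor
  · rintro ⟨w, hw, hr⟩
    exact ⟨w, hw, by rw [← h1 w hw]; exact hr⟩
  · rintro ⟨w, hw, hr⟩
    exact ⟨w, hw, by rw [h1 w hw]; exact hr⟩

theorem A2_tl_local (i J₀ : ℕ) (x : List Bool) {C C' : Oracle} (h : Agree x.length C C') :
    tl i J₀ C x = tl i J₀ C' x := by
  have h1 : (∃ j, J₀ ≤ j ∧ fam j = i ∧ x.length = sc j ∧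
      ∃ y : List Bool, y.length + 2 = sc j ∧ C (false :: true :: y) = true) ↔
      (∃ j, J₀ ≤ j ∧ fam j = i ∧ x.length = sc j ∧
      ∃ y : List Bool, y.length + 2 = sc j ∧ C' (false :: true :: y) = true) := by
    constructor
    · rintro ⟨j, h1, h2, h3, y, h4, h5⟩
      refine ⟨j, h1, h2, h3, y, h4, ?_⟩
      rw [← h _ (by simp only [List.length_cons]; omega)]
      exact h5
    · rintro ⟨j, h1, h2, h3, y, h4, h5⟩
      refine ⟨j, h1, h2, h3, y, h4, ?_⟩
      rw [h _ (by simp only [List.length_cons]; omega)]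
      exact h5
  unfold tl
  exact decide_eq_decide.2 h1

theorem A2_Agree.mono {n m : ℕ} (hnm : n ≤ m) {C C' : Oracle} (h : Agree m C C') :
    Agree n C C' := fun q hq => h q (hq.trans hnm)

theorem red_local {act : Act} (hs : Short act) (f : OracleProc (List Bool) (List Bool))
    (i J₀ : ℕ) (e : Ver × Ver) (x : List Bool) : ∃ n, ∀ C C', Agree n C C' →
      (PRed act f i J₀ e x C ↔ PRed act f i J₀ e x C') := by
  obtain ⟨q1, h1⟩ := acc_local hs e.1
  obtain ⟨q2, h2⟩ := acc_local hs e.2
  obtain ⟨qf, hf⟩ := QB_word f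
  obtain ⟨qo, ho⟩ := out_bound f
  refine ⟨q1.eval (qo.eval x.length) + q2.eval (qo.eval x.length) + qf.eval x.length + x.length,
    ?_⟩
  intro C C' h
  have e1 : f.run (Xo act C) x = f.run (Xo act C') x :=
    run_local hs f (hf x _ le_rfl) (A2_Agree.mono (by omega) h)
  have e2 : tl i J₀ C x = tl i J₀ C' x := A2_tl_local i J₀ x (A2_Agree.mono (by omega) h)
  have e3 : (f.run (Xo act C') x).length ≤ qo.eval x.length := ho _ x
  have m1 : q1.eval (f.run (Xo act C') x).length ≤ q1.eval (qo.eval x.length) := poly_mono q1 e3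
  have m2 : q2.eval (f.run (Xo act C') x).length ≤ q2.eval (qo.eval x.length) := poly_mono q2 e3
  have e4 := h1 (f.run (Xo act C') x) C C' (A2_Agree.mono (by omega) h)
  have e5 := h2 (f.run (Xo act C') x) C C' (A2_Agree.mono (by omega) h)
  unfold PRed
  rw [e1, e2, e4, e5]

end Pool.Agent.PudOr
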