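import Mathlib
import Pool.Agent.PudOr.Th

set_option autoImplicit false

/-!
# A3: generic sets
-/

namespace Pool.Agent.PudOr

open N68a2faeb N793a5b8e N487b59b3 Pool.Agent.Helper22

theorem sc_lt (j : ℕ) : sc j + 2 ≤ sc (j + 1) := by
  show sc j + 2 ≤ 2 ^ (sc j + 2)
  exact Nat.lt_two_pow_self.le

theorem sc_strictMono : StrictMono sc := by
  refine strictMono_nat_of_lt_succ fun j => ?_
  have := sc_lt j
  omega

theorem le_sc (j : ℕ) : j + 2 ≤ sc j := by
  induction j with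
  | zero => exact le_rfl
  | succ j ih =>
    have := sc_lt j
    omega

/-- scales of a given family are unbounded -/
theorem exists_fam (i N : ℕ) : ∃ j, N ≤ j ∧ fam j = i := by
  refine ⟨Nat.pair i N, Nat.right_le_pair i N, ?_⟩
  unfold fam
  rw [Nat.unpair_pair]

theorem A3_absOK_congr {C C' : Oracle} {j : ℕ}
    (h : ∀ q : List Bool, q.length = sc j → C q = C' q) (hC : AbsOK C j) : AbsOK C' j := by
  obtain ⟨⟨q, hq, hq'⟩, h2⟩ := hC
  refine ⟨⟨q, hq, (h q hq).symm.trans hq'⟩, ?_⟩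
  rintro ⟨⟨y, hy, hy'⟩, ⟨z, hz, hz'⟩⟩
  apply h2
  refine ⟨⟨y, hy, (h _ ?_).trans hy'⟩, ⟨z, hz, (h _ ?_).trans hz'⟩⟩
  · simpa using hy
  · simpa using hz

theorem A3_prot_congr {C C' : Oracle} {j : ℕ}
    (h : ∀ q : List Bool, q.length = sc j → C q = C' q) (hC : Prot C j) : Prot C' j := by
  intro y hy
  rw [← h _ (by simpa using hy)]
  exact hC y hy

/-- raising the scale bound -/
theorem A3_raiseJ (p : Cond) (C₀ : Oracle) (h₀ : p.Comp C₀) (J' : ℕ) (hJ : p.J ≤ J') :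
    ∃ p' : Cond, p'.m = p.m ∧ p'.J = J' ∧ p'.Comp C₀ ∧ (∀ C', p'.Comp C' → p.Comp C') ∧
      ∀ C', p'.Comp C' → ∀ q : List Bool, q.length < sc J' → C' q = C₀ q := by
  classical
  have hfin : {q : List Bool | q.length < sc J' ∧ C₀ q = true}.Finite :=
    (List.finite_length_lt Bool (sc J')).subset fun q hq => hq.1
  have hmem : ∀ q : List Bool, q ∈ hfin.toFinset.toList ↔ q.length < sc J' ∧ C₀ q = true := by
    intro q
    rw [Finset.mem_toList, Set.Finite.mem_toFinset]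
    exact Iff.rfl
  have hagree : ∀ C', (⟨p.m, J', hfin.toFinset.toList⟩ : Cond).Comp C' →
      ∀ q : List Bool, q.length < sc J' → C' q = C₀ q := by
    intro C' hC' q hq
    have h1 := hC'.1 q hq
    rw [hmem] at h1
    have h2 : C' q = true ↔ C₀ q = true := by
      rw [h1]
      exact ⟨fun h => h.2, fun h => ⟨hq, h⟩⟩
    exact Bool.eq_iff_iff.2 h2
  refine ⟨⟨p.m, J', hfin.toFinset.toList⟩, rfl, rfl, ⟨?_, ?_⟩, ?_, hagree⟩
  · intro q hq
    rw [hmem]
    exact ⟨fun h => ⟨hq, h⟩, fun h => h.2⟩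
  · intro j hj
    exact h₀.2 j (hJ.trans hj)
  · intro C' hC'
    have hag := hagree C' hC'
    refine ⟨?_, ?_⟩
    · intro q hq
      rw [hag q (hq.trans_le (sc_strictMono.monotone hJ))]
      exact h₀.1 q hq
    · intro j hj
      by_cases hjJ : J' ≤ j
      · exact hC'.2 j hjJ
      · have hlt : sc j < sc J' := sc_strictMono (not_le.1 hjJ)
        have hag' : ∀ q : List Bool, q.length = sc j → C₀ q = C' q := fun q hq =>
          (hag q (hq ▸ hlt)).symm
        exact ⟨A3_absOK_congr hag' (h₀.2 j hj).1, fun hf => A3_prot_congr hag' ((h₀.2 j hj).2 hf)⟩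

/-- the default set from length `n` on -/
def A3_dflt (n : ℕ) (C₀ : Oracle) : Oracle := fun q =>
  if q.length < n then C₀ q else q.all fun b => !b

theorem A3_dflt_ok (n : ℕ) (C₀ : Oracle) (j : ℕ) (hj : n ≤ sc j) :
    AbsOK (A3_dflt n C₀) j ∧ Prot (A3_dflt n C₀) j := by
  refine ⟨⟨⟨List.replicate (sc j) false, by simp, ?_⟩, ?_⟩, ?_⟩
  · unfold A3_dflt
    rw [if_neg (by simp; omega)]
    simp
  · rintro ⟨-, y, hy, hy'⟩
    unfold A3_dflt at hy'
    rw [if_neg (by simp; omega)] at hy'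
    simp at hy'
  · intro y hy
    unfold A3_dflt
    rw [if_neg (by simp; omega)]
    simp

/-- raising the number of protected families -/
theorem A3_raisem (p : Cond) (C₀ : Oracle) (h₀ : p.Comp C₀) (m' : ℕ) (hm : p.m ≤ m') :
    (⟨m', p.J, p.pos⟩ : Cond).Comp (A3_dflt (sc p.J) C₀) ∧
      ∀ C', (⟨m', p.J, p.pos⟩ : Cond).Comp C' → p.Comp C' := by
  refine ⟨⟨?_, ?_⟩, ?_⟩
  · intro q hq
    have : A3_dflt (sc p.J) C₀ q = C₀ q := if_pos hq
    rw [this]
    exact h₀.1 q hq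
  · intro j hj
    have := A3_dflt_ok (sc p.J) C₀ j (sc_strictMono.monotone hj)
    exact ⟨this.1, fun _ => this.2⟩
  · intro C' hC'
    exact ⟨hC'.1, fun j hj => ⟨(hC'.2 j hj).1, fun hf => (hC'.2 j hj).2 (lt_of_lt_of_le hf hm)⟩⟩

/-- the step of the construction -/
theorem A3_step (Q : List Bool → Oracle → Prop)
    (hQ : ∀ x, ∃ n, ∀ C C', Agree n C C' → (Q x C ↔ Q x C')) (k : ℕ) (p : Cond)
    (hp : ∃ C, p.Comp C) :
    ∃ p' : Cond, (∃ C, p'.Comp C) ∧ (∀ C', p'.Comp C' → p.Comp C') ∧ p.J < p'.J ∧ k ≤ p'.m ∧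
      ((∀ C', p'.Comp C' → ∀ x, Q x C') ∨ ∃ x, ∀ C', p'.Comp C' → ¬ Q x C') := by
  -- first part: decide `Q`
  have h1 : ∃ p' : Cond, (∃ C, p'.Comp C) ∧ (∀ C', p'.Comp C' → p.Comp C') ∧ p.J < p'.J ∧
      ((∀ C', p'.Comp C' → ∀ x, Q x C') ∨ ∃ x, ∀ C', p'.Comp C' → ¬ Q x C') := by
    by_cases hc : ∃ C₀, p.Comp C₀ ∧ ∃ x, ¬ Q x C₀
    · obtain ⟨C₀, h₀, x, hx⟩ := hc
      obtain ⟨n, hn⟩ := hQ x
      obtain ⟨p', -, hJ, hc', hsub, hag⟩ := A3_raiseJ p C₀ h₀ (max (p.J + 1) n) (by omega)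
      refine ⟨p', ⟨C₀, hc'⟩, hsub, by omega, Or.inr ⟨x, fun C' hC' hQ' => hx ?_⟩⟩
      have hle := le_sc (max (p.J + 1) n)
      rw [← hn C' C₀ ?_]
      · exact hQ'
      · intro q hq
        exact hag C' hC' q (by omega)
    · push Not at hc
      obtain ⟨C₀, h₀⟩ := hp
      obtain ⟨p', -, hJ, hc', hsub, -⟩ := A3_raiseJ p C₀ h₀ (p.J + 1) (by omega)
      exact ⟨p', ⟨C₀, hc'⟩, hsub, by omega, Or.inl fun C' hC' x => hc C' (hsub C' hC') x⟩
  obtain ⟨p', ⟨C₁, hC₁⟩, hsub, hJ, hdec⟩ := h1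
  obtain ⟨hc2, hsub2⟩ := A3_raisem p' C₁ hC₁ (max p'.m k) (le_max_left _ _)
  refine ⟨⟨max p'.m k, p'.J, p'.pos⟩, ⟨_, hc2⟩, fun C' hC' => hsub C' (hsub2 C' hC'), hJ,
    le_max_right _ _, ?_⟩
  rcases hdec with hd | ⟨x, hx⟩
  · exact Or.inl fun C' hC' => hd C' (hsub2 C' hC')
  · exact Or.inr ⟨x, fun C' hC' => hx C' (hsub2 C' hC')⟩

theorem exists_generic {ι : Type} [Countable ι] (P : ι → List Bool → Oracle → Prop)
    (hP : ∀ i x, ∃ n, ∀ C C', Agree n C C' → (P i x C ↔ P i x C')) :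
    ∃ C, (∀ j, AbsOK C j) ∧ Nonempty (Generic P C) := by
  classical
  obtain ⟨enc, henc⟩ := Countable.exists_injective_nat ι
  let Q : ℕ → List Bool → Oracle → Prop := fun k x C => ∀ i, enc i = k → P i x C
  have hQ : ∀ k x, ∃ n, ∀ C C', Agree n C C' → (Q k x C ↔ Q k x C') := by
    intro k x
    by_cases hk : ∃ i, enc i = k
    · obtain ⟨i, rfl⟩ := hk
      obtain ⟨n, hn⟩ := hP i x
      refine ⟨n, fun C C' hag => ?_⟩
      constructor
      · intro h i' hi'
        have := henc hi'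
        subst this
        exact (hn C C' hag).1 (h _ rfl)
      · intro h i' hi'
        have := henc hi'
        subst this
        exact (hn C C' hag).2 (h _ rfl)
    · refine ⟨0, fun C C' _ => ?_⟩
      exact ⟨fun _ i hi => (hk ⟨i, hi⟩).elim, fun _ i hi => (hk ⟨i, hi⟩).elim⟩
  choose step hs1 hs2 hs3 hs4 hs5 using fun (k : ℕ) (p : {p : Cond // ∃ C, p.Comp C}) =>
    A3_step (Q k) (hQ k) (k + 1) p.1 p.2
  have h0 : ∃ C, (⟨0, 0, []⟩ : Cond).Comp C := by
    refine ⟨A3_dflt 2 fun _ => false, ?_, ?_⟩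
    · intro q hq
      have hq2 : q.length < 2 := hq
      have : A3_dflt 2 (fun _ => false) q = false := if_pos hq2
      rw [this]
      simp
    · intro j _
      have h2 := le_sc j
      have := A3_dflt_ok 2 (fun _ => false) j (by omega)
      exact ⟨this.1, fun _ => this.2⟩
  let s : ℕ → {p : Cond // ∃ C, p.Comp C} := fun n =>
    Nat.rec ⟨⟨0, 0, []⟩, h0⟩ (fun k p => ⟨step k p, hs1 k p⟩) n
  have hs : ∀ k, (s (k + 1)).1 = step k (s k) := fun k => rfl
  have hanti1 : ∀ k C', (s (k + 1)).1.Comp C' → (s k).1.Comp C' := by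
    intro k C' h
    rw [hs] at h
    exact hs2 k (s k) C' h
  have hanti : ∀ a b C', a ≤ b → (s b).1.Comp C' → (s a).1.Comp C' := by
    intro a b C' hab
    induction hab with
    | refl => exact id
    | step _ ih => exact fun h => ih (hanti1 _ _ h)
  have hJ1 : ∀ k, (s k).1.J < (s (k + 1)).1.J := by
    intro k
    rw [hs]
    exact hs3 k (s k)
  have hJ : ∀ k, k ≤ (s k).1.J := by
    intro k
    induction k with
    | zero => exact Nat.zero_le _
    | succ k ih =>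
      have := hJ1 k
      omega
  have hm : ∀ k, k ≤ (s k).1.m := by
    intro k
    cases k with
    | zero => exact Nat.zero_le _
    | succ k =>
      rw [hs]
      exact hs4 k (s k)
  let C : Oracle := fun q => decide (q ∈ (s (q.length + 1)).1.pos)
  have hCag : ∀ K C', (s K).1.Comp C' → ∀ q : List Bool, q.length + 1 ≤ K → C' q = C q := by
    intro K C' hC' q hq
    have h1 := (hanti _ K C' hq hC').1 q (by
      have h2 := hJ (q.length + 1)
      have h3 := le_sc (s (q.length + 1)).1.J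
      omega)
    have h2 : C q = true ↔ q ∈ (s (q.length + 1)).1.pos := decide_eq_true_iff
    exact Bool.eq_iff_iff.2 (h1.trans h2.symm)
  have hCcomp : ∀ k, (s k).1.Comp C := by
    intro k
    refine ⟨?_, ?_⟩
    · intro q hq
      obtain ⟨C', hC'⟩ := (s (max k (q.length + 1))).2
      rw [← hCag _ C' hC' q (le_max_right _ _)]
      exact (hanti k _ C' (le_max_left _ _) hC').1 q hq
    · intro j hj
      obtain ⟨C', hC'⟩ := (s (max k (sc j + 1))).2
      have hag : ∀ q : List Bool, q.length = sc j → C' q = C q := fun q hq =>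
        hCag _ C' hC' q (by rw [hq]; exact le_max_right _ _)
      have h1 := (hanti k _ C' (le_max_left _ _) hC').2 j hj
      exact ⟨A3_absOK_congr hag h1.1, fun hf => A3_prot_congr hag (h1.2 hf)⟩
  refine ⟨C, fun j => ((hCcomp 0).2 j (Nat.zero_le _)).1,
    ⟨⟨fun k => (s k).1, hCcomp, hanti1, fun k => (hJ1 k).le, hm, ?_⟩⟩⟩
  intro i hi
  refine ⟨enc i + 1, fun C' hC' x => ?_⟩
  have hd := hs5 (enc i) (s (enc i))
  rw [← hs] at hd
  rcases hd with hd | ⟨x, hx⟩
  · exact hd C' hC' x i rfl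
  · exact (hx C (hCcomp (enc i + 1)) fun i' hi' => by
      have := henc hi'
      subst this
      exact hi x).elim

end Pool.Agent.PudOr
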