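import Mathlib
import Pool.Agent.PudOr.A2
import Pool.Agent.PudOr.A3

set_option autoImplicit false

/-!
# A5a: the verifier of the universal pair
-/

namespace Pool.Agent.PudOr

open N68a2faeb N793a5b8e N487b59b3 Pool.Agent.Helper22
open scoped Classical

theorem mem_words {n : ℕ} {q : List Bool} : q ∈ words n ↔ q.length = n := by
  induction n generalizing q with
  | zero => simp [words]
  | succ n ih =>
    rcases q with _ | ⟨b, q⟩
    · simp [words]
    · cases b <;> simp [words, ih]

theorem A5a_words_length (n : ℕ) : (words n).length = 2 ^ n := by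
  induction n with
  | zero => rfl
  | succ n ih => rw [words, List.length_append, List.length_map, List.length_map, ih]; ring

theorem mem_shortList {A : ℕ} (hA : 0 < A) {q : List Bool} :
    q ∈ shortList A ↔ 2 ^ q.length ≤ A := by
  rw [shortList, List.mem_flatMap]
  simp only [List.mem_range, mem_words]
  constructor
  · rintro ⟨a, h1, rfl⟩
    exact Nat.pow_le_of_le_log (by omega) (by omega)
  · intro h
    exact ⟨q.length, Nat.lt_succ_of_le (Nat.le_log_of_pow_le (by norm_num) h), rfl⟩

theorem shortList_length (A : ℕ) (hA : 0 < A) : (shortList A).length ≤ 2 * A := by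
  have h : ∀ n, ((List.range n).flatMap words).length + 1 = 2 ^ n := by
    intro n
    induction n with
    | zero => rfl
    | succ n ih =>
      rw [List.range_succ, List.flatMap_append, List.length_append]
      simp only [List.flatMap_cons, List.flatMap_nil, List.append_nil, A5a_words_length]
      rw [pow_succ]
      omega
  have h1 := h (Nat.log 2 A + 1)
  have h2 := Nat.pow_log_le_self 2 (show A ≠ 0 by omega)
  rw [shortList]
  rw [pow_succ] at h1
  omega

theorem A5a_sAns_length (σ : Strat) (C : Oracle) (n : ℕ) : (sAns σ C n).length = n := by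
  induction n with
  | zero => rfl
  | succ n ih => rw [sAns, List.length_cons, ih]

theorem A5a_sAns_le {σ : Strat} {C C' : Oracle} {n : ℕ} (k : ℕ)
    (h : sAns σ C' (n + k) = sAns σ C (n + k)) : sAns σ C' n = sAns σ C n := by
  induction k with
  | zero => exact h
  | succ k ih =>
    rw [← Nat.add_assoc, sAns, sAns] at h
    exact ih (List.cons.inj h).2

theorem A5a_cs_length (z : List Bool) : (cs z).length ≤ z.length := by
  induction z using cs.induct with
  | case1 b l ih => simp only [cs, List.length_cons]; omega
  | case2 => simp [cs]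
  | case3 l => simp [cs]
  | case4 => simp [cs]

theorem A5a_ConfDP {act : Act} {z : List Bool} {N : ℕ} (h : z.length ≤ N) :
    ConfDP (trunc act N) z ↔ ConfDP act z := by
  simp only [ConfDP, trunc_trunc act h]

theorem A5a_QB {act : Act} {z w : List Bool} {C : Oracle} {b : Bool}
    (h : PredDP b act z w C) : QB (side b (enumDP (cf (cf z)).length).1).1 (cs (cf z), w)
      z.length := by
  cases b
  · exact h.1.2.1 w h.2.1
  · exact h.1.1 w h.2.1

theorem A5a_PredDP {act : Act} {z w : List Bool} {N : ℕ} (h : z.length ≤ N) (C : Oracle)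
    (b : Bool) : PredDP b (trunc act N) z w C ↔ PredDP b act z w C := by
  constructor
  · intro h1
    have hq := (A5a_QB h1).mono h
    obtain ⟨h2, h3, h4, h5, h6⟩ := h1
    rw [run_trunc act _ hq C] at h5
    rw [used_trunc act _ hq C] at h6
    exact ⟨(A5a_ConfDP h).1 h2, h3, h4, h5, h6⟩
  · intro h1
    have hq := (A5a_QB h1).mono h
    obtain ⟨h2, h3, h4, h5, h6⟩ := h1
    refine ⟨(A5a_ConfDP h).2 h2, h3, h4, ?_, ?_⟩
    · rw [run_trunc act _ hq C]
      exact h5
    · rw [used_trunc act _ hq C]
      exact h6

theorem A5a_strat_lt {b : Bool} {act : Act} {v ans : List Bool}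
    (h : ans.length < (shortList (sB (cf (cf v)))).length) :
    (thDP b act v).1 ans = .inr ((shortList (sB (cf (cf v))))[ans.length]) := by
  simp only [thDP, dif_pos h]

theorem A5a_strat_ge {b : Bool} {act : Act} {v ans : List Bool}
    (h : ¬ ans.length < (shortList (sB (cf (cf v)))).length) :
    (thDP b act v).1 ans = act ((side b (enumDP (cf (cf (cf (cf v)))).length).1).1.query
      ((cs (cf (cf (cf v))), cs (cf v)),
        ans.take (ans.length - (shortList (sB (cf (cf v)))).length))) := by
  simp only [thDP, dif_neg h]

/-- the strategy, after the list of short words -/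
theorem A5a_sAns_add (b : Bool) (act : Act) (v : List Bool) (C : Oracle) (k : ℕ) :
    sAns (thDP b act v).1 C ((shortList (sB (cf (cf v)))).length + k) =
      (side b (enumDP (cf (cf (cf (cf v)))).length).1).1.answers (Xo act C)
        (cs (cf (cf (cf v))), cs (cf v)) k ++
        sAns (thDP b act v).1 C (shortList (sB (cf (cf v)))).length := by
  induction k with
  | zero => rw [Nat.add_zero, OracleProc.answers, List.nil_append]
  | succ k ih =>
    rw [← Nat.add_assoc, sAns, ih, OracleProc.answers]
    rw [List.cons_append]
    have hlen := A5a_sAns_length (thDP b act v).1 C (shortList (sB (cf (cf v)))).length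
    have hans := OracleProc.answers_length (side b (enumDP (cf (cf (cf (cf v)))).length).1).1
      (Xo act C) (cs (cf (cf (cf v))), cs (cf v)) k
    generalize sAns (thDP b act v).1 C (shortList (sB (cf (cf v)))).length = u at *
    generalize (side b (enumDP (cf (cf (cf (cf v)))).length).1).1.answers (Xo act C)
        (cs (cf (cf (cf v))), cs (cf v)) k = t at *
    have h1 : ¬ (t ++ u).length < (shortList (sB (cf (cf v)))).length := by
      rw [List.length_append]
      omega
    have h2 : (t ++ u).take ((t ++ u).length - (shortList (sB (cf (cf v)))).length) = t := by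
      rw [List.length_append, hlen, Nat.add_sub_cancel, List.take_left]
    rw [A5a_strat_ge h1, h2]
    rfl

theorem A5a_short {b : Bool} {act : Act} {v : List Bool} {C C' : Oracle}
    (h : sAns (thDP b act v).1 C' (shortList (sB (cf (cf v)))).length =
      sAns (thDP b act v).1 C (shortList (sB (cf (cf v)))).length) :
    ∀ q ∈ shortList (sB (cf (cf v))), C' q = C q := by
  intro q hq
  obtain ⟨n, hn, rfl⟩ := List.getElem_of_mem hq
  obtain ⟨k, hk⟩ := Nat.exists_eq_add_of_le (show n + 1 ≤ (shortList (sB (cf (cf v)))).length
    by omega)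
  rw [hk] at h
  have h1 := A5a_sAns_le k h
  rw [sAns, sAns] at h1
  have h2 := (List.cons.inj h1).1
  have key : ∀ D : Oracle, (thDP b act v).1 (sAns (thDP b act v).1 D n) =
      .inr ((shortList (sB (cf (cf v))))[n]) := by
    intro D
    have h3 := A5a_sAns_length (thDP b act v).1 D n
    rw [A5a_strat_lt (by rw [h3]; exact hn)]
    simp only [h3]
  rw [key, key] at h2
  exact h2

theorem A5a_determinacy {b : Bool} {act : Act} {v : List Bool} {C C' : Oracle}
    (hv : 64 * ((cf (cf v)).length + 1) ≤ v.length)
    (h : sAns (thDP b act v).1 C' v.length = sAns (thDP b act v).1 C v.length)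
    (hP : PredDP b act (cf (cf v)) (cs (cf v)) C) : PredDP b act (cf (cf v)) (cs (cf v)) C' := by
  have hq := A5a_QB hP
  have hN := shortList_length (sB (cf (cf v))) (by rw [sB]; omega)
  have hsB : sB (cf (cf v)) = 16 * ((cf (cf v)).length + 1) := rfl
  set M := (side b (enumDP (cf (cf (cf (cf v)))).length).1).1 with hM
  set a := (cs (cf (cf (cf v))), cs (cf v)) with ha
  obtain ⟨k, hk⟩ := Nat.exists_eq_add_of_le
    (show (shortList (sB (cf (cf v)))).length + (M.clock a).length ≤ v.length by
      have h1 := hq.1
      omega)
  rw [hk] at h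
  have h1 := A5a_sAns_le k h
  have h2 := A5a_short (A5a_sAns_le _ h1)
  rw [A5a_sAns_add, A5a_sAns_add] at h1
  have h3 := (List.append_inj h1 (by
    rw [OracleProc.answers_length, OracleProc.answers_length])).1
  obtain ⟨h4, h5, h6⟩ := used_of_answers act M le_rfl h3
  obtain ⟨p1, p2, p3, p4, p5⟩ := hP
  refine ⟨p1, p2, fun q hq2 => ?_, ?_, ?_⟩
  · have h7 : C' q = C q := h2 q ((mem_shortList (by rw [sB]; omega)).2 hq2)
    rw [h7]
    exact p3 q hq2
  · exact h6.trans p4
  · intro q hq2 hz
    have hq3 : q ∈ used act M C' a := hq2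
    rw [h5] at hq3
    rw [h4 q hq3]
    exact p5 q hq3 hz

/-- the verifier of side `b` -/
theorem exists_verDP {act : Act} (hs : Short act) (b : Bool) {D : OracleProc (List Bool) Bool}
    (hD : Drives act D (thDP b)) : ∃ V : OracleProc (List Bool × List Bool) Bool,
      ∀ (C : Oracle) (z w : List Bool), V.run (Xo act C) (z, w) = true ↔ PredDP b act z w C := by
  let g : List Bool × List Bool → List Bool := fun a =>
    cd (cd a.1 a.2) (un ((64 * (Polynomial.X + 1) : Polynomial ℕ).eval a.1.length))
  have hg : FP g := by
    have h1 : FP fun a : List Bool × List Bool =>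
        un ((64 * (Polynomial.X + 1) : Polynomial ℕ).eval a.1.length) := FP.un_poly FP.fst _
    have h2 : FP fun a : List Bool × List Bool => cd a.1 a.2 := by fun_prop
    exact FP.cd h2 h1
  refine ⟨comap D g hg, fun C z w => ?_⟩
  rw [comap_run]
  set v := g (z, w) with hv
  have hcf : cf v = cd z w := by rw [hv]; exact cf_cd _ _
  have hz : cf (cf v) = z := by rw [hcf, cf_cd]
  have hw : cs (cf v) = w := by rw [hcf, cs_cd]
  have hlen : 64 * (z.length + 1) ≤ v.length := by
    have h1 : v = cd (cd z w) (un ((64 * (Polynomial.X + 1) : Polynomial ℕ).eval z.length)) := rfl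
    rw [h1, cd_length, un_length]
    simp only [Polynomial.eval_mul, Polynomial.eval_ofNat, Polynomial.eval_add, Polynomial.eval_X,
      Polynomial.eval_one]
    omega
  have hval : ∀ C, (thDP b (trunc act v.length) v).2 C =
      decide (PredDP b (trunc act v.length) (cf (cf v)) (cs (cf v)) C) := fun _ => rfl
  rw [hD C v ?_ ?_]
  · rw [hval, decide_eq_true_iff, hz, hw]
    exact A5a_PredDP (by omega) C b
  · intro ans q hq
    by_cases h1 : ans.length < (shortList (sB (cf (cf v)))).length
    · rw [A5a_strat_lt h1] at hq
      have h3 : q ∈ shortList (sB (cf (cf v))) := by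
        rw [← Sum.inr.inj hq]
        exact List.getElem_mem h1
      rw [mem_shortList (by rw [sB]; omega), hz, sB] at h3
      have h4 := Nat.lt_two_pow_self (n := q.length)
      omega
    · rw [A5a_strat_ge h1, trunc] at hq
      split_ifs at hq with h3
      exact (hs _ _ hq).trans h3.le
  · intro C' hC'
    rw [hval, hval, decide_eq_decide]
    have hv' : 64 * ((cf (cf v)).length + 1) ≤ v.length := by rw [hz]; exact hlen
    exact ⟨A5a_determinacy hv' hC'.symm, A5a_determinacy hv' hC'⟩

end Pool.Agent.PudOr
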