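import Mathlib
import Pool.Agent.PudOr.A2
import Pool.Agent.PudOr.A3

set_option autoImplicit false

/-!
# A6b: the clash
-/

namespace Pool.Agent.PudOr

open N68a2faeb N793a5b8e N487b59b3 Pool.Agent.Helper22
open scoped Classical

/-- the words of length `n` as a finite set -/
noncomputable def a6bW (n : ℕ) : Finset (List Bool) :=
  (Finset.univ : Finset (List.Vector Bool n)).map ⟨fun v => v.1, Subtype.val_injective⟩

theorem a6bW_mem (n : ℕ) (y : List Bool) : y ∈ a6bW n ↔ y.length = n := by
  unfold a6bW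
  rw [Finset.mem_map]
  constructor
  · rintro ⟨v, -, rfl⟩
    exact v.2
  · intro h
    exact ⟨⟨y, h⟩, Finset.mem_univ _, rfl⟩

theorem a6bW_card (n : ℕ) : (a6bW n).card = 2 ^ n := by
  unfold a6bW
  rw [Finset.card_map, Finset.card_univ, card_vector, Fintype.card_bool]

/-- the number of words `y` whose image under an injective map is in a list -/
theorem a6b_card_le {α : Type} (s : Finset α) (g : α → List Bool)
    (hg : Function.Injective g) (l : List (List Bool)) :
    (s.filter fun y => g y ∈ l).card ≤ l.length := by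
  calc (s.filter fun y => g y ∈ l).card
      ≤ l.toFinset.card := by
        apply Finset.card_le_card_of_injOn g
        · intro y hy
          rw [Finset.mem_coe, Finset.mem_filter] at hy
          exact Finset.mem_coe.2 (List.mem_toFinset.2 hy.2)
        · exact hg.injOn
    _ ≤ l.length := List.toFinset_card_le l

/-- Double counting: `Q b y` (sets of words used for the contents `{0 b y}`) and `R z` (for the
contents `{1 z}`), all of size at most `k`, with `4 * k < 2 ^ n`; then some `z`, `b = v z` and `y`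
avoid each other. -/
theorem avoid (n k : ℕ) (hk : 4 * k < 2 ^ n) (Q : Bool → List Bool → List (List Bool))
    (R : List Bool → List (List Bool)) (v : List Bool → Bool)
    (hQ : ∀ b y, y.length = n → (Q b y).length ≤ k)
    (hR : ∀ z, z.length = n + 1 → (R z).length ≤ k) :
    ∃ y z : List Bool, y.length = n ∧ z.length = n + 1 ∧ true :: z ∉ Q (v z) y ∧
      false :: v z :: y ∉ R z := by
  by_contra hcon
  push Not at hcon
  -- every z
  have h1 : ∀ z ∈ a6bW (n + 1), 2 ^ n ≤
      ((a6bW n).filter fun y => true :: z ∈ Q (v z) y).card + k := by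
    intro z hz
    rw [a6bW_mem] at hz
    have hsub : a6bW n ⊆ ((a6bW n).filter fun y => true :: z ∈ Q (v z) y) ∪
        ((a6bW n).filter fun y => false :: v z :: y ∈ R z) := by
      intro y hy
      rw [Finset.mem_union, Finset.mem_filter, Finset.mem_filter]
      have hy' := (a6bW_mem n y).1 hy
      by_cases h : true :: z ∈ Q (v z) y
      · exact Or.inl ⟨hy, h⟩
      · exact Or.inr ⟨hy, hcon y z hy' hz h⟩
    have h2 := (Finset.card_le_card hsub).trans (Finset.card_union_le _ _)
    rw [a6bW_card] at h2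
    have h3 : ((a6bW n).filter fun y => false :: v z :: y ∈ R z).card ≤ k :=
      (a6b_card_le (a6bW n) (fun y => false :: v z :: y)
        (fun a b h => by simpa using h) (R z)).trans (hR z hz)
    omega
  have h4 : ∑ z ∈ a6bW (n + 1), 2 ^ n ≤
      ∑ z ∈ a6bW (n + 1), (((a6bW n).filter fun y => true :: z ∈ Q (v z) y).card + k) :=
    Finset.sum_le_sum h1
  rw [Finset.sum_const, Finset.sum_add_distrib, Finset.sum_const, a6bW_card] at h4
  have hdc : ∑ z ∈ a6bW (n + 1), ((a6bW n).filter fun y => true :: z ∈ Q (v z) y).card =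
      ∑ y ∈ a6bW n, ((a6bW (n + 1)).bipartiteBelow (fun z y => true :: z ∈ Q (v z) y) y).card :=
    Finset.sum_card_bipartiteAbove_eq_sum_card_bipartiteBelow
      (fun z y => true :: z ∈ Q (v z) y)
  rw [hdc] at h4
  have h5 : ∑ y ∈ a6bW n, ((a6bW (n + 1)).bipartiteBelow (fun z y => true :: z ∈ Q (v z) y) y).card
      ≤ ∑ y ∈ a6bW n, (k + k) := by
    apply Finset.sum_le_sum
    intro y hy
    rw [a6bW_mem] at hy
    have hsub : (a6bW (n + 1)).bipartiteBelow (fun z y => true :: z ∈ Q (v z) y) y ⊆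
        ((a6bW (n + 1)).filter fun z => true :: z ∈ Q true y) ∪
        ((a6bW (n + 1)).filter fun z => true :: z ∈ Q false y) := by
      intro z hz
      rw [Finset.mem_bipartiteBelow] at hz
      rw [Finset.mem_union, Finset.mem_filter, Finset.mem_filter]
      obtain ⟨hz1, hz2⟩ := hz
      cases hv : v z
      · rw [hv] at hz2; exact Or.inr ⟨hz1, hz2⟩
      · rw [hv] at hz2; exact Or.inl ⟨hz1, hz2⟩
    have h2 := (Finset.card_le_card hsub).trans (Finset.card_union_le _ _)
    have h3 : ∀ b, ((a6bW (n + 1)).filter fun z => true :: z ∈ Q b y).card ≤ k := fun b =>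
      (a6b_card_le (a6bW (n + 1)) (fun z => true :: z)
        (fun a b h => by simpa using h) (Q b y)).trans (hQ b y hy)
    have ha := h3 true
    have hb := h3 false
    omega
  rw [Finset.sum_const, a6bW_card] at h5
  have h6 := h4.trans (Nat.add_le_add_right h5 _)
  simp only [smul_eq_mul] at h6
  have h7 : 2 ^ (n + 1) = 2 * 2 ^ n := by rw [pow_succ]; ring
  rw [h7] at h6
  have h8 : 2 * 2 ^ n * 2 ^ n ≤ 4 * k * 2 ^ n := by nlinarith [h6]
  have h9 : 0 < 2 ^ n := by positivity
  have h10 := Nat.le_of_mul_le_mul_right h8 h9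
  omega

/-- polynomials are small compared with powers of two -/
theorem a6b_poly (r : Polynomial ℕ) : ∃ N, ∀ n, N ≤ n → 4 * r.eval n < 2 ^ (n - 2) := by
  obtain ⟨e, he⟩ := poly_le_pow r
  have h1 := tendsto_pow_const_div_const_pow_of_one_lt e (show (1 : ℝ) < 2 by norm_num)
  have h2 := tendsto_pow_const_div_const_pow_of_one_lt 1 (show (1 : ℝ) < 2 by norm_num)
  have h3 := h1.eventually (gt_mem_nhds (show (0 : ℝ) < 1 / 64 by norm_num))
  have h4 := h2.eventually (gt_mem_nhds (show (0 : ℝ) < 1 / 64 by norm_num))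
  have h5 := ((h3.and h4).and (Filter.eventually_ge_atTop (e + 2)))
  obtain ⟨N, hN⟩ := Filter.eventually_atTop.1 h5
  refine ⟨N, fun n hn => ?_⟩
  obtain ⟨⟨ha, hb⟩, hc⟩ := hN n hn
  have hpos : (0 : ℝ) < 2 ^ n := by positivity
  rw [div_lt_iff₀ hpos] at ha hb
  have h6 : 16 * (n ^ e + e) < 2 ^ n := by
    have : (16 : ℝ) * ((n : ℝ) ^ e + e) < 2 ^ n := by
      have he' : (e : ℝ) ≤ n := by exact_mod_cast (by omega : e ≤ n)
      rw [pow_one] at hb
      nlinarith
    exact_mod_cast this
  have h7 := he n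
  have h8 : 2 ^ n = 4 * 2 ^ (n - 2) := by
    obtain ⟨m, rfl⟩ := Nat.exists_eq_add_of_le (show 2 ≤ n by omega)
    rw [Nat.add_sub_cancel_left, pow_add]
    norm_num
  omega

/-- the oracle `C₀` with the words of length `s` replaced by the list `K` -/
noncomputable def a6bC (C₀ : Oracle) (s : ℕ) (K : List (List Bool)) : Oracle := fun q =>
  if q.length = s then decide (q ∈ K) else C₀ q

theorem a6bC_ne {C₀ : Oracle} {s : ℕ} {K : List (List Bool)} {q : List Bool} (h : q.length ≠ s) :
    a6bC C₀ s K q = C₀ q := if_neg h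

theorem a6bC_eq {C₀ : Oracle} {s : ℕ} {K : List (List Bool)} {q : List Bool} (h : q.length = s) :
    a6bC C₀ s K q = decide (q ∈ K) := if_pos h

theorem a6bC_true {C₀ : Oracle} {s : ℕ} {K : List (List Bool)} {q : List Bool} (h : q.length = s) :
    a6bC C₀ s K q = true ↔ q ∈ K := by
  rw [a6bC_eq h, decide_eq_true_eq]

theorem a6b_AbsOK_ne {C₀ : Oracle} {j j' : ℕ} {K : List (List Bool)} (h : j' ≠ j)
    (hC : AbsOK C₀ j') : AbsOK (a6bC C₀ (sc j) K) j' := by
  have hsc : sc j' ≠ sc j := fun h' => h (sc_strictMono.injective h')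
  obtain ⟨⟨q, hq, hq'⟩, hn⟩ := hC
  refine ⟨⟨q, hq, by rw [a6bC_ne (by rw [hq]; exact hsc)]; exact hq'⟩, ?_⟩
  rintro ⟨⟨y, hy, hy'⟩, ⟨z, hz, hz'⟩⟩
  rw [a6bC_ne (by simp only [List.length_cons]; omega)] at hy' hz'
  exact hn ⟨⟨y, hy, hy'⟩, ⟨z, hz, hz'⟩⟩

theorem a6b_Prot_ne {C₀ : Oracle} {j j' : ℕ} {K : List (List Bool)} (h : j' ≠ j)
    (hC : Prot C₀ j') : Prot (a6bC C₀ (sc j) K) j' := by
  have hsc : sc j' ≠ sc j := fun h' => h (sc_strictMono.injective h')
  intro y hy
  rw [a6bC_ne (by simp only [List.length_cons]; omega)]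
  exact hC y hy

/-- compatibility of the changed oracle -/
theorem a6b_comp {c : Cond} {C₀ : Oracle} (hC₀ : c.Comp C₀) {j : ℕ} (hj : c.J ≤ j)
    (K : List (List Bool)) (h1 : AbsOK (a6bC C₀ (sc j) K) j)
    (h2 : fam j < c.m → Prot (a6bC C₀ (sc j) K) j) : c.Comp (a6bC C₀ (sc j) K) := by
  refine ⟨fun q hq => ?_, fun j' hj' => ?_⟩
  · have hle : sc c.J ≤ sc j := sc_strictMono.monotone hj
    rw [a6bC_ne (by omega)]
    exact hC₀.1 q hq
  · by_cases h : j' = j
    · subst h; exact ⟨h1, h2⟩
    · obtain ⟨ha, hb⟩ := hC₀.2 j' hj'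
      exact ⟨a6b_AbsOK_ne h ha, fun hf => a6b_Prot_ne h (hb hf)⟩

/-- the language at the scale `j` for the contents `{0 b y}` -/
theorem a6b_tl {C₀ : Oracle} {i J₀ j : ℕ} (hJ : J₀ ≤ j) (hf : fam j = i) (b : Bool)
    (y x : List Bool) (hy : y.length + 2 = sc j) (hx : x.length = sc j) :
    tl i J₀ (a6bC C₀ (sc j) [false :: b :: y]) x = b := by
  unfold tl
  cases b
  · rw [decide_eq_false_iff_not]
    rintro ⟨j', -, -, hj', y', hy', hy''⟩
    have : j' = j := sc_strictMono.injective (by omega)
    subst this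
    rw [a6bC_true (by simp only [List.length_cons]; omega)] at hy''
    simp at hy''
  · rw [decide_eq_true_eq]
    refine ⟨j, hJ, hf, hx, y, hy, ?_⟩
    rw [a6bC_true (by simp only [List.length_cons]; omega)]
    simp

theorem clash {act : Act} (hs : Short act) {c c' : Cond}
    (hcc : ∀ C', c'.Comp C' → c.Comp C') (hJ : c.J ≤ c'.J) {C₀ : Oracle} (hC₀ : c'.Comp C₀)
    {i : ℕ} (hi : c.m ≤ i) (J₀ : ℕ) (e : Ver × Ver)
    (hgood : ∀ C', c.Comp C' → ∀ x, PGood act e x C')
    (f : OracleProc (List Bool) (List Bool))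
    (hred : ∀ C', c'.Comp C' → ∀ x, PRed act f i J₀ e x C') : False := by
  obtain ⟨qf, hqf⟩ := QB_word f
  obtain ⟨q1, hq1⟩ := QB_ver e.1
  obtain ⟨q2, hq2⟩ := QB_ver e.2
  obtain ⟨qo, hqo⟩ := out_bound f
  set r : Polynomial ℕ := qf + (q1.comp qo + q2.comp qo) with hr
  obtain ⟨N, hN⟩ := a6b_poly r
  obtain ⟨j, hj, hfam⟩ := exists_fam i (max N (max c'.J J₀))
  have hjN : N ≤ j := (le_max_left _ _).trans hj
  have hjJ : c'.J ≤ j := (le_max_left _ _).trans ((le_max_right _ _).trans hj)
  have hjJ0 : J₀ ≤ j := (le_max_right _ _).trans ((le_max_right _ _).trans hj)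
  have hscj := le_sc j
  have hk := hN (sc j) (by omega)
  obtain ⟨n, hn⟩ : ∃ n, sc j = n + 2 := ⟨sc j - 2, by omega⟩
  set x₀ : List Bool := List.replicate (sc j) false with hx₀
  have hx₀l : x₀.length = sc j := by rw [hx₀, List.length_replicate]
  set k := r.eval (sc j) with hkdef
  have hk' : 4 * k < 2 ^ n := by
    rw [hn, Nat.add_sub_cancel] at hk
    exact hk
  -- length bounds
  have bf : ∀ C, (used act f C x₀).length ≤ qf.eval (sc j) := fun C =>
    (used_length act f C x₀).trans (hqf x₀ _ (le_of_eq (by rw [hx₀l]))).1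
  have bo : ∀ C, (f.run (Xo act C) x₀).length ≤ qo.eval (sc j) := fun C => by
    have := hqo (Xo act C) x₀
    rwa [hx₀l] at this
  have bv : ∀ (b : Bool) (C : Oracle) (w : List Bool),
      w.length ≤ (side b e).2.eval (f.run (Xo act C) x₀).length →
      (used act (side b e).1 C (f.run (Xo act C) x₀, w)).length ≤
        q1.eval (qo.eval (sc j)) + q2.eval (qo.eval (sc j)) := by
    intro b C w hw
    refine (used_length act _ C _).trans ?_
    cases b
    · have h := (hq2 (f.run (Xo act C) x₀) _ (poly_mono q2 (bo C)) w hw).2.1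
      exact h.trans (Nat.le_add_left _ _)
    · have h := (hq1 (f.run (Xo act C) x₀) _ (poly_mono q1 (bo C)) w hw).2.1
      exact h.trans (Nat.le_add_right _ _)
  have hkval : k = qf.eval (sc j) + (q1.eval (qo.eval (sc j)) + q2.eval (qo.eval (sc j))) := by
    rw [hkdef, hr, Polynomial.eval_add, Polynomial.eval_add, Polynomial.eval_comp,
      Polynomial.eval_comp]
  -- contents `{0 b y}`
  have hc1 : ∀ b y, y.length = n → c'.Comp (a6bC C₀ (sc j) [false :: b :: y]) := by
    intro b y hy
    apply a6b_comp hC₀ hjJ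
    · refine ⟨⟨false :: b :: y, by simp only [List.length_cons]; omega, ?_⟩, ?_⟩
      · rw [a6bC_true (by simp only [List.length_cons]; omega)]
        simp
      · rintro ⟨⟨y1, hy1, hy1'⟩, ⟨y2, hy2, hy2'⟩⟩
        rw [a6bC_true (by simp only [List.length_cons]; omega)] at hy1' hy2'
        rw [List.mem_singleton] at hy1' hy2'
        injection hy1' with _ h1
        injection hy2' with _ h2
        injection h1 with h1 _
        injection h2 with h2 _
        rw [← h1] at h2
        exact Bool.noConfusion h2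
    · intro _ y1 hy1
      rw [a6bC_eq (by simp only [List.length_cons]; omega), decide_eq_false_iff_not]
      simp
  have hacc1 : ∀ b y, y.length = n →
      Acc act (side b e) (f.run (Xo act (a6bC C₀ (sc j) [false :: b :: y])) x₀)
        (a6bC C₀ (sc j) [false :: b :: y]) := by
    intro b y hy
    have h := hred _ (hc1 b y hy) x₀
    have ht := a6b_tl (C₀ := C₀) hjJ0 hfam b y x₀ (by omega) hx₀l
    cases b
    · exact h.2 ht
    · exact h.1 ht
  -- choose witnesses
  have hw1 : ∀ b y, ∃ w : List Bool, y.length = n →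
      w.length ≤ (side b e).2.eval
        (f.run (Xo act (a6bC C₀ (sc j) [false :: b :: y])) x₀).length ∧
      (side b e).1.run (Xo act (a6bC C₀ (sc j) [false :: b :: y]))
        (f.run (Xo act (a6bC C₀ (sc j) [false :: b :: y])) x₀, w) = true := by
    intro b y
    by_cases hy : y.length = n
    · obtain ⟨w, hw⟩ := hacc1 b y hy
      exact ⟨w, fun _ => hw⟩
    · exact ⟨[], fun h => absurd h hy⟩
  choose w1 hw1 using hw1
  -- contents `{1 z}`
  have hc2 : ∀ K : List (List Bool), K ≠ [] → (∀ q ∈ K, q.length = sc j) →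
      (∀ q ∈ K, ∀ q' ∈ K, ¬ ((∃ y, q = false :: false :: y) ∧ ∃ y, q' = false :: true :: y)) →
      c.Comp (a6bC C₀ (sc j) K) := by
    intro K hK0 hKl hKa
    apply a6b_comp (hcc C₀ hC₀) (hJ.trans hjJ)
    · obtain ⟨q, hq⟩ := List.exists_mem_of_ne_nil K hK0
      refine ⟨⟨q, hKl q hq, (a6bC_true (hKl q hq)).2 hq⟩, ?_⟩
      rintro ⟨⟨y1, hy1, hy1'⟩, ⟨y2, hy2, hy2'⟩⟩
      rw [a6bC_true (by simp only [List.length_cons]; omega)] at hy1' hy2'
      exact hKa _ hy1' _ hy2' ⟨⟨y1, rfl⟩, ⟨y2, rfl⟩⟩
    · intro hf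
      omega
  have hc2' : ∀ z, z.length = n + 1 → c.Comp (a6bC C₀ (sc j) [true :: z]) := by
    intro z hz
    apply hc2
    · simp
    · intro q hq
      rw [List.mem_singleton] at hq
      rw [hq]; simp only [List.length_cons]; omega
    · intro q hq q' _
      rw [List.mem_singleton] at hq
      rw [hq]
      rintro ⟨⟨y, hy⟩, _⟩
      injection hy with h _
      exact Bool.noConfusion h
  set a : List Bool → Bool := fun z => decide (Acc act e.1
    (f.run (Xo act (a6bC C₀ (sc j) [true :: z])) x₀) (a6bC C₀ (sc j) [true :: z])) with ha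
  have hacc2 : ∀ z, z.length = n + 1 →
      Acc act (side (a z) e) (f.run (Xo act (a6bC C₀ (sc j) [true :: z])) x₀)
        (a6bC C₀ (sc j) [true :: z]) := by
    intro z hz
    have h := hgood _ (hc2' z hz) (f.run (Xo act (a6bC C₀ (sc j) [true :: z])) x₀)
    unfold PGood at h
    by_cases h1 : Acc act e.1 (f.run (Xo act (a6bC C₀ (sc j) [true :: z])) x₀)
      (a6bC C₀ (sc j) [true :: z])
    · have : a z = true := decide_eq_true h1
      rw [this]; exact h1
    · have : a z = false := decide_eq_false h1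
      rw [this]
      by_contra h2
      exact h1 (h.2 h2)
  have hw2 : ∀ z, ∃ w : List Bool, z.length = n + 1 →
      w.length ≤ (side (a z) e).2.eval
        (f.run (Xo act (a6bC C₀ (sc j) [true :: z])) x₀).length ∧
      (side (a z) e).1.run (Xo act (a6bC C₀ (sc j) [true :: z]))
        (f.run (Xo act (a6bC C₀ (sc j) [true :: z])) x₀, w) = true := by
    intro z
    by_cases hz : z.length = n + 1
    · obtain ⟨w, hw⟩ := hacc2 z hz
      exact ⟨w, fun _ => hw⟩
    · exact ⟨[], fun h => absurd h hz⟩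
  choose w2 hw2 using hw2
  -- apply `avoid`
  obtain ⟨y, z, hy, hz, hQ, hR⟩ := avoid n k hk'
    (fun b y => used act f (a6bC C₀ (sc j) [false :: b :: y]) x₀ ++
      used act (side b e).1 (a6bC C₀ (sc j) [false :: b :: y])
        (f.run (Xo act (a6bC C₀ (sc j) [false :: b :: y])) x₀, w1 b y))
    (fun z => used act f (a6bC C₀ (sc j) [true :: z]) x₀ ++
      used act (side (a z) e).1 (a6bC C₀ (sc j) [true :: z])
        (f.run (Xo act (a6bC C₀ (sc j) [true :: z])) x₀, w2 z))
    (fun z => !(a z))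
    (fun b y hy => by
      rw [List.length_append, hkval]
      exact Nat.add_le_add (bf _) (bv b _ _ (hw1 b y hy).1))
    (fun z hz => by
      rw [List.length_append, hkval]
      exact Nat.add_le_add (bf _) (bv (a z) _ _ (hw2 z hz).1))
  simp only [List.mem_append, not_or] at hQ hR
  set b : Bool := !(a z) with hb
  set C1 : Oracle := a6bC C₀ (sc j) [false :: b :: y] with hC1
  set C2 : Oracle := a6bC C₀ (sc j) [true :: z] with hC2
  set C3 : Oracle := a6bC C₀ (sc j) [false :: b :: y, true :: z] with hC3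
  have hcomp3 : c.Comp C3 := by
    apply hc2
    · simp
    · intro q hq
      simp only [List.mem_cons, List.not_mem_nil, or_false] at hq
      rcases hq with rfl | rfl <;> simp only [List.length_cons] <;> omega
    · intro q hq q' hq'
      simp only [List.mem_cons, List.not_mem_nil, or_false] at hq hq'
      rintro ⟨⟨y1, hy1⟩, ⟨y2, hy2⟩⟩
      subst hy1 hy2
      rcases hq with hq | hq
      · rcases hq' with hq' | hq'
        · injection hq with _ h1
          injection hq' with _ h2
          injection h1 with h1 _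
          injection h2 with h2 _
          rw [← h1] at h2
          exact Bool.noConfusion h2
        · injection hq' with h _
          exact Bool.noConfusion h
      · injection hq with h _
        exact Bool.noConfusion h
  have e31 : ∀ q, q ≠ true :: z → C3 q = C1 q := by
    intro q hq
    by_cases hl : q.length = sc j
    · rw [hC3, hC1, a6bC_eq hl, a6bC_eq hl]
      simp [hq]
    · rw [hC3, hC1, a6bC_ne hl, a6bC_ne hl]
  have e32 : ∀ q, q ≠ false :: b :: y → C3 q = C2 q := by
    intro q hq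
    by_cases hl : q.length = sc j
    · rw [hC3, hC2, a6bC_eq hl, a6bC_eq hl]
      simp [hq]
    · rw [hC3, hC2, a6bC_ne hl, a6bC_ne hl]
  have hne1 : ∀ {q : List Bool} {l : List (List Bool)}, q ∈ l → true :: z ∉ l → q ≠ true :: z :=
    fun h1 h2 h3 => h2 (h3 ▸ h1)
  have hne2 : ∀ {q : List Bool} {l : List (List Bool)}, q ∈ l → false :: b :: y ∉ l →
    q ≠ false :: b :: y := fun h1 h2 h3 => h2 (h3 ▸ h1)
  have f1 : f.run (Xo act C3) x₀ = f.run (Xo act C1) x₀ :=
    run_used act f fun q hq => e31 q (hne1 hq hQ.1)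
  have f2 : f.run (Xo act C3) x₀ = f.run (Xo act C2) x₀ :=
    run_used act f fun q hq => e32 q (hne2 hq hR.1)
  have g1 : Acc act (side b e) (f.run (Xo act C3) x₀) C3 := by
    refine ⟨w1 b y, ?_, ?_⟩
    · rw [f1]; exact (hw1 b y hy).1
    · rw [f1, run_used act (side b e).1 (C := C1) fun q hq => e31 q (hne1 hq hQ.2)]
      exact (hw1 b y hy).2
  have g2 : Acc act (side (a z) e) (f.run (Xo act C3) x₀) C3 := by
    refine ⟨w2 z, ?_, ?_⟩
    · rw [f2]; exact (hw2 z hz).1
    · rw [f2, run_used act (side (a z) e).1 (C := C2) fun q hq => e32 q (hne2 hq hR.2)]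
      exact (hw2 z hz).2
  have hg := hgood C3 hcomp3 (f.run (Xo act C3) x₀)
  unfold PGood at hg
  rw [hb] at g1
  cases haz : a z
  · rw [haz] at g1 g2
    exact hg.1 g1 g2
  · rw [haz] at g1 g2
    exact hg.1 g2 g1

end Pool.Agent.PudOr
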