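import Mathlib
import Pool.Agent.PudOr.A2
import Pool.Agent.PudOr.A3

set_option autoImplicit false

/-!
# A5b: the universal pair is disjoint
-/

namespace Pool.Agent.PudOr

open N68a2faeb N793a5b8e N487b59b3 Pool.Agent.Helper22
open scoped Classical

/-- a set of at most `k` words misses some word `0 0 y` of length `n` -/
theorem exists_unused (n : ℕ) (hn : 2 ≤ n) (Q : List (List Bool)) (hQ : Q.length < 2 ^ (n - 2)) :
    ∃ y : List Bool, y.length + 2 = n ∧ false :: false :: y ∉ Q := by
  by_contra hcon
  push Not at hcon
  let g : (Fin (n - 2) → Bool) → List Bool := fun f => false :: false :: List.ofFn f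
  have hg : Function.Injective g := by
    intro f f' h
    simp only [g, List.cons.injEq, true_and] at h
    exact List.ofFn_injective h
  have hsub : Finset.univ.image g ⊆ Q.toFinset := by
    intro q hq
    obtain ⟨f, _, rfl⟩ := Finset.mem_image.1 hq
    rw [List.mem_toFinset]
    exact hcon _ (by simp; omega)
  have h1 := Finset.card_le_card hsub
  rw [Finset.card_image_of_injective _ hg, Finset.card_univ, Fintype.card_fun, Fintype.card_bool,
    Fintype.card_fin] at h1
  have h2 := List.toFinset_card_le Q
  omega

theorem predDP_disjoint {act : Act} (hs : Short act) {C : Oracle} (hC : ∀ j, AbsOK C j)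
    (z w w' : List Bool) : ¬ (PredDP true act z w C ∧ PredDP false act z w' C) := by
  rintro ⟨h1, h2⟩
  unfold PredDP at h1 h2
  set e := enumDP (cf (cf z)).length with he
  set x := cs (cf z) with hx
  obtain ⟨hconf, hw, hshort, hrun, hus⟩ := h1
  obtain ⟨_, hw', _, hrun', hus'⟩ := h2
  unfold ConfDP at hconf
  rw [← he, ← hx] at hconf
  obtain ⟨hq1, hq0, hJ, hdis⟩ := hconf
  simp only [side, if_true, Bool.false_eq_true, if_false] at hw hrun hus hw' hrun' hus'
  set c := e.2 with hc
  have hQ1 := hq1 w hw
  have hQ0 := hq0 w' hw'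
  set U := used act e.1.1.1 C (x, w) ++ used act e.1.2.1 C (x, w') with hU
  have hUlen : U.length ≤ 2 * z.length := by
    have a1 := (used_length act e.1.1.1 C (x, w)).trans hQ1.1
    have a2 := (used_length act e.1.2.1 C (x, w')).trans hQ0.1
    rw [hU, List.length_append]
    omega
  -- the big scales
  let big : ℕ → Prop := fun j => c.J ≤ j ∧ fam j < c.m ∧ sB z < 2 ^ sc j
  let noS : ℕ → Prop := fun j => ¬ ∃ (b : Bool) (y : List Bool), y.length + 2 = sc j ∧
    C (false :: b :: y) = true
  have hex : ∀ j, ∃ y : List Bool, big j → (y.length + 2 = sc j ∧ false :: false :: y ∉ U) := by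
    intro j
    by_cases hb : big j
    · have h2 : 2 ≤ sc j := by have := le_sc j; omega
      have h3 : U.length < 2 ^ (sc j - 2) := by
        have h4 : 2 ^ sc j = 4 * 2 ^ (sc j - 2) := by
          rw [show (4 : ℕ) = 2 ^ 2 by norm_num, ← pow_add]
          congr 1
          omega
        have h5 : sB z < 2 ^ sc j := hb.2.2
        unfold sB at h5
        omega
      obtain ⟨y, hy⟩ := exists_unused (sc j) h2 U h3
      exact ⟨y, fun _ => hy⟩
    · exact ⟨[], fun h => absurd h hb⟩
  choose nw hnw using hex
  let Del : List Bool → Prop := fun q => ∃ j, big j ∧ ∃ y, q = true :: y ∧ y.length + 1 = sc j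
  let New : List Bool → Prop := fun q => ∃ j, big j ∧ noS j ∧ q = false :: false :: nw j
  let C' : Oracle := fun q => decide ((C q = true ∧ ¬ Del q) ∨ New q)
  have hC'iff : ∀ q, C' q = true ↔ ((C q = true ∧ ¬ Del q) ∨ New q) := fun q => by
    simp only [C', decide_eq_true_eq]
  have hDelZ : ∀ q, Del q → IsZ c q := by
    rintro q ⟨j, hb, y, hy, hl⟩
    exact ⟨j, hb.1, hb.2.1, y, hy, hl⟩
  have hDelLen : ∀ q, Del q → ∃ j, big j ∧ q.length = sc j := by
    rintro q ⟨j, hb, y, rfl, hl⟩
    exact ⟨j, hb, by simpa using hl⟩
  have hNewLen : ∀ q, New q → ∃ j, big j ∧ q.length = sc j := by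
    rintro q ⟨j, hb, _, rfl⟩
    exact ⟨j, hb, by simpa using (hnw j hb).1⟩
  -- agreement outside
  have hsame : ∀ q, ¬ Del q → ¬ New q → C' q = C q := by
    intro q h3 h4
    rw [Bool.eq_iff_iff, hC'iff]
    constructor
    · rintro (h | h)
      · exact h.1
      · exact absurd h h4
    · intro h
      exact Or.inl ⟨h, h3⟩
  have hsame' : ∀ q, (∀ j, q.length = sc j → ¬ big j) → C' q = C q := by
    intro q h
    apply hsame
    · intro hd
      obtain ⟨j, hb, hl⟩ := hDelLen q hd
      exact h j hl hb
    · intro hd
      obtain ⟨j, hb, hl⟩ := hNewLen q hd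
      exact h j hl hb
  have hagree : ∀ q ∈ U, C' q = C q := by
    intro q hq
    by_cases hd : Del q
    · have h3 : C q = false := by
        rw [hU, List.mem_append] at hq
        rcases hq with hq | hq
        · exact hus q hq (hDelZ q hd)
        · exact hus' q hq (hDelZ q hd)
      rw [h3]
      rw [Bool.eq_false_iff]
      intro h4
      rw [hC'iff] at h4
      rcases h4 with h4 | h4
      · exact h4.2 hd
      · obtain ⟨j, _, y, hy, _⟩ := hd
        obtain ⟨j', _, _, hn⟩ := h4
        rw [hy] at hn
        simp at hn
    · apply hsame q hd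
      rintro ⟨j, hb, _, rfl⟩
      exact (hnw j hb).2 hq
  have hinj : ∀ {j j'}, sc j = sc j' → j = j' := fun h => sc_strictMono.injective h
  have hcomp : c.Comp C' := by
    refine ⟨fun q hq => ?_, fun j hj => ?_⟩
    · have h3 : C' q = C q := by
        apply hsame'
        intro j hl hb
        have h4 : sc c.J ≤ sc j := sc_strictMono.monotone hb.1
        omega
      rw [h3]
      have h4 : 2 ^ q.length ≤ sB z := by
        have h5 : 2 ^ q.length ≤ 2 ^ sc c.J := Nat.pow_le_pow_right (by norm_num) hq.le
        unfold sB
        omega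
      exact (hshort q h4).1 hq
    · by_cases hb : big j
      · refine ⟨⟨?_, ?_⟩, fun _ y hy => ?_⟩
        · by_cases hn : noS j
          · exact ⟨false :: false :: nw j, by simpa using (hnw j hb).1,
              (hC'iff _).2 (Or.inr ⟨j, hb, hn, rfl⟩)⟩
          · simp only [noS, not_not] at hn
            obtain ⟨b, y, hy, hCy⟩ := hn
            refine ⟨false :: b :: y, by simpa using hy, (hC'iff _).2 (Or.inl ⟨hCy, ?_⟩)⟩
            rintro ⟨j', _, y', hy', _⟩
            simp at hy'
        · rintro ⟨⟨y, hy, hCy⟩, ⟨y', hy', hCy'⟩⟩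
          rw [hC'iff] at hCy hCy'
          have h5 : C (false :: true :: y') = true := by
            rcases hCy' with h | h
            · exact h.1
            · obtain ⟨j', _, _, hn⟩ := h
              simp at hn
          rcases hCy with h | h
          · exact (hC j).2 ⟨⟨y, hy, h.1⟩, ⟨y', hy', h5⟩⟩
          · obtain ⟨j', hb', hn', hn⟩ := h
            simp only [List.cons.injEq, true_and] at hn
            have h6 := (hnw j' hb').1
            rw [← hn, hy] at h6
            have h7 := hinj h6
            subst h7
            exact hn' ⟨true, y', hy', h5⟩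
        · rw [Bool.eq_false_iff]
          intro h
          rw [hC'iff] at h
          rcases h with h | h
          · exact h.2 ⟨j, hb, y, rfl, hy⟩
          · obtain ⟨j', _, _, hn⟩ := h
            simp at hn
      · have h3 : ∀ q : List Bool, q.length = sc j → C' q = C q := by
          intro q hq
          apply hsame'
          intro j' hl hb'
          rw [hq] at hl
          have := hinj hl
          subst this
          exact hb hb'
        refine ⟨⟨?_, ?_⟩, fun hf y hy => ?_⟩
        · obtain ⟨q, hq, hCq⟩ := (hC j).1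
          exact ⟨q, hq, by rw [h3 q hq]; exact hCq⟩
        · rintro ⟨⟨y, hy, hCy⟩, ⟨y', hy', hCy'⟩⟩
          rw [h3 _ (by simpa using hy)] at hCy
          rw [h3 _ (by simpa using hy')] at hCy'
          exact (hC j).2 ⟨⟨y, hy, hCy⟩, ⟨y', hy', hCy'⟩⟩
        · rw [h3 _ (by simpa using hy)]
          have h4 : 2 ^ sc j ≤ sB z := by
            by_contra h5
            exact hb ⟨hj, hf, not_le.1 h5⟩
          refine (hshort (true :: y) ?_).2 ⟨j, hj, hf, y, rfl, hy⟩
          rw [show (true :: y).length = sc j by simpa using hy]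
          exact h4
  apply hdis C' hcomp
  constructor
  · refine ⟨w, hw, ?_⟩
    rw [run_trunc act e.1.1.1 hQ1, run_used act e.1.1.1 (C := C)]
    · exact hrun
    · intro q hq
      exact hagree q (by rw [hU, List.mem_append]; exact Or.inl hq)
  · refine ⟨w', hw', ?_⟩
    rw [run_trunc act e.1.2.1 hQ0, run_used act e.1.2.1 (C := C)]
    · exact hrun'
    · intro q hq
      exact hagree q (by rw [hU, List.mem_append]; exact Or.inr hq)

end Pool.Agent.PudOr
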