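import Mathlib
import Pool.Agent.PudOr.A5a
import Pool.Agent.PudOr.A5b

set_option autoImplicit false

/-!
# A5: the universal pair is complete
-/

namespace Pool.Agent.PudOr

open N68a2faeb N793a5b8e N487b59b3 Pool.Agent.Helper22
open scoped Classical

/-- A5: the language of side `b` -/
noncomputable def lanDP (act : Act) (C : Oracle) (b : Bool) : DecisionProblem := fun z =>
  decide (∃ w : List Bool, w.length ≤ z.length ∧ PredDP b act z w C)

theorem lanDP_iff (act : Act) (C : Oracle) (b : Bool) (z : List Bool) :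
    lanDP act C b z = true ↔ ∃ w : List Bool, w.length ≤ z.length ∧ PredDP b act z w C := by
  simp [lanDP]

/-- A5: the language of side `b` is in NP -/
theorem lanDP_NPo {act : Act} (hs : Short act) (b : Bool) {D : OracleProc (List Bool) Bool}
    (hD : Drives act D (thDP b)) (C : Oracle) : lanDP act C b ∈ NPo (Xo act C) := by
  obtain ⟨V, hV⟩ := exists_verDP hs b hD
  refine ⟨Polynomial.X, V, fun z => ?_⟩
  rw [lanDP_iff]
  simp only [Accepts, Polynomial.eval_X, hV]

/-- A5: the padded instance of the pair with number `n` -/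
theorem exists_inst (n : ℕ) (qq : Polynomial ℕ) :
    ∃ f : OracleProc (List Bool) (List Bool), ∀ (X : Oracle) (x : List Bool),
      f.run X x = cd (cd (un n) x) (un (qq.eval x.length)) := by
  have h : FP fun x : List Bool => cd (cd (un n) x) (un (qq.eval x.length)) := by
    have h1 : FP fun x : List Bool => un (qq.eval x.length) := FP.un_poly FP.id _
    fun_prop
  exact ⟨pureProc _ h, fun X x => pureProc_run _ h X x⟩

/-- A5: acceptance by a side gives a witness of the universal pair -/
theorem predDP_of_acc {act : Act} {C : Oracle} {z x : List Bool} {e : Ver × Ver} {c : Cond}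
    (he : enumDP (cf (cf z)).length = (e, c)) (hx : cs (cf z) = x)
    (hconf : ConfDP act z) (hcC : c.Comp C) (b : Bool)
    (hlen : ∀ w : List Bool, w.length ≤ (side b e).2.eval x.length → w.length ≤ z.length)
    (hb : Acc act (side b e) x C) : lanDP act C b z = true := by
  rw [lanDP_iff]
  obtain ⟨w, hw, hr⟩ := hb
  have hz : ∀ q, IsZ c q → C q = false := by
    rintro q ⟨j, hj, hf, y, rfl, hy⟩
    exact (hcC.2 j hj).2 hf y hy
  refine ⟨w, hlen w hw, ?_⟩
  unfold PredDP
  simp only [he, hx]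
  refine ⟨hconf, hw, fun q _ => ⟨fun hq => hcC.1 q hq, hz q⟩, hr, fun q _ => hz q⟩

theorem pair_complete {act : Act} (hs : Short act) {D : Bool → OracleProc (List Bool) Bool}
    (hD : ∀ b, Drives act (D b) (thDP b)) {C : Oracle} (hC : ∀ j, AbsOK C j)
    (hforce : ∀ e : Ver × Ver, (∀ x, PDisj act e x C) →
      ∃ c : Cond, c.Comp C ∧ ∀ C', c.Comp C' → ∀ x, PDisj act e x C') :
    ∃ A B, CompletePair (Xo act C) A B := by
  refine ⟨lanDP act C true, lanDP act C false, ⟨lanDP_NPo hs true (hD true) C,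
    lanDP_NPo hs false (hD false) C, ?_⟩, ?_⟩
  · rintro z ⟨h1, h2⟩
    rw [lanDP_iff] at h1 h2
    obtain ⟨w, -, hw⟩ := h1
    obtain ⟨w', -, hw'⟩ := h2
    exact predDP_disjoint hs hC z w w' ⟨hw, hw'⟩
  · rintro A' B' ⟨⟨pA, MA, hA⟩, ⟨pB, MB, hB⟩, hdis⟩
    let e : Ver × Ver := ((MA, pA), (MB, pB))
    obtain ⟨c, hcC, hc⟩ := hforce e (by
      rintro x ⟨h1, h2⟩
      exact hdis x ⟨(hA x).2 h1, (hB x).2 h2⟩)
    obtain ⟨n, hn⟩ := enumDP_surj (e, c)
    obtain ⟨q1, h1⟩ := QB_ver e.1
    obtain ⟨q2, h2⟩ := QB_ver e.2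
    obtain ⟨f, hf⟩ := exists_inst n (q1 + q2 + Polynomial.C (2 ^ sc c.J))
    refine ⟨f, fun x => ?_⟩
    rw [hf]
    set z := cd (cd (un n) x) (un ((q1 + q2 + Polynomial.C (2 ^ sc c.J)).eval x.length)) with hz
    have hzl : q1.eval x.length + q2.eval x.length + 2 ^ sc c.J ≤ z.length := by
      rw [hz, cd_length, un_length, Polynomial.eval_add, Polynomial.eval_add, Polynomial.eval_C]
      omega
    have hze : enumDP (cf (cf z)).length = (e, c) := by
      rw [hz, cf_cd, cf_cd, un_length, hn]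
    have hzx : cs (cf z) = x := by rw [hz, cf_cd, cs_cd]
    have hQ1 := h1 x z.length (by have := Nat.zero_le (2 ^ sc c.J); omega)
    have hQ2 := h2 x z.length (by have := Nat.zero_le (2 ^ sc c.J); omega)
    have hacc : ∀ (v : Ver) (C' : Oracle), (∀ w : List Bool, w.length ≤ v.2.eval x.length →
        w.length ≤ z.length ∧ QB v.1 (x, w) z.length) → Acc (trunc act z.length) v x C' →
        Acc act v x C' := by
      rintro v C' hv ⟨w, hw, hr⟩
      exact ⟨w, hw, by rw [← hr, run_trunc act v.1 (hv w hw).2]⟩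
    have hconf : ConfDP act z := by
      unfold ConfDP
      simp only [hze, hzx]
      refine ⟨fun w hw => (hQ1 w hw).2, fun w hw => (hQ2 w hw).2, by omega, ?_⟩
      rintro C' hC' ⟨a1, a2⟩
      exact hc C' hC' x ⟨hacc _ C' hQ1 a1, hacc _ C' hQ2 a2⟩
    refine ⟨fun h => ?_, fun h => ?_⟩
    · exact predDP_of_acc hze hzx hconf hcC true (fun w hw => (hQ1 w hw).1) ((hA x).1 h)
    · exact predDP_of_acc hze hzx hconf hcC false (fun w hw => (hQ2 w hw).1) ((hB x).1 h)

end Pool.Agent.PudOr
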