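import Mathlib
import Pool.Agent.PudOr.A2
import Pool.Agent.PudOr.A3

set_option autoImplicit false

/-!
# A6a: the languages `tl i J₀` are in NP ∩ coNP
-/

namespace Pool.Agent.PudOr

open N68a2faeb N793a5b8e N487b59b3 Pool.Agent.Helper22
open scoped Classical

/-- the procedure `D b` computes the predicate of `thT` on pairs -/
theorem A6a_run {act : Act} {i J₀ : ℕ} {b : Bool} {D : OracleProc (List Bool) Bool}
    (hD : Drives act D (thT i J₀ b)) (C : Oracle) (x w : List Bool) :
    D.run (Xo act C) (cd x w) =
      if (∃ j, J₀ ≤ j ∧ fam j = i ∧ x.length = sc j) then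
        decide (w.length + 2 = x.length) && C (false :: b :: w) else !b := by
  have h := hD C (cd x w) ?_ ?_
  · rw [h]
    simp only [thT, cf_cd, cs_cd]
  · intro ans q hq
    simp only [thT, cs_cd] at hq
    split_ifs at hq with h1
    cases hq
    simp only [List.length_cons]
    omega
  · intro C' hC'
    simp only [thT, cf_cd, cs_cd] at hC' ⊢
    by_cases hc : ∃ j, J₀ ≤ j ∧ fam j = i ∧ x.length = sc j
    · rw [if_pos hc, if_pos hc]
      by_cases hw : w.length + 2 = x.length
      · have hlen : w.length + 2 ≤ (cd x w).length := by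
          rw [cd_length]
          omega
        simp only [if_pos hlen] at hC'
        obtain ⟨n, hn⟩ : ∃ n, (cd x w).length = n + 1 := ⟨(cd x w).length - 1, by omega⟩
        rw [hn, sAns, sAns] at hC'
        have h1 := (List.cons.inj hC').1
        simp only [look] at h1
        rw [h1]
      · have hd : decide (w.length + 2 = x.length) = false := decide_eq_false hw
        rw [hd, Bool.false_and, Bool.false_and]
    · rw [if_neg hc, if_neg hc]

theorem tl_mem {act : Act} {i J₀ : ℕ} {D : Bool → OracleProc (List Bool) Bool}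
    (hD : ∀ b, Drives act (D b) (thT i J₀ b)) {C : Oracle}
    (hC : ∀ j, J₀ ≤ j → fam j = i → AbsOK C j ∧ Prot C j) :
    tl i J₀ C ∈ NPo (Xo act C) ∩ coNPo (Xo act C) := by
  have hcd : FP fun a : List Bool × List Bool => cd a.1 a.2 := by fun_prop
  constructor
  · refine ⟨Polynomial.X, comap (D true) _ hcd, fun x => ?_⟩
    unfold Accepts
    simp only [comap_run, A6a_run (hD true), Polynomial.eval_X]
    constructor
    · intro h
      obtain ⟨j, hj1, hj2, hj3, y, hy, hCy⟩ := of_decide_eq_true h
      refine ⟨y, by omega, ?_⟩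
      rw [if_pos ⟨j, hj1, hj2, hj3⟩, hCy, Bool.and_true, decide_eq_true_eq]
      omega
    · rintro ⟨w, hw, hw2⟩
      split_ifs at hw2 with hc
      · obtain ⟨j, hj1, hj2, hj3⟩ := hc
        rw [Bool.and_eq_true, decide_eq_true_eq] at hw2
        exact decide_eq_true ⟨j, hj1, hj2, hj3, w, by omega, hw2.2⟩
      · simp at hw2
  · change (tl i J₀ C)ᶜ ∈ NPo (Xo act C)
    refine ⟨Polynomial.X, comap (D false) _ hcd, fun x => ?_⟩
    have hcompl : (tl i J₀ C)ᶜ x = true ↔ ¬ (tl i J₀ C x = true) := by
      change (!(tl i J₀ C x)) = true ↔ _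
      cases tl i J₀ C x <;> simp
    rw [hcompl]
    unfold Accepts
    simp only [comap_run, A6a_run (hD false), Polynomial.eval_X]
    constructor
    · intro h
      by_cases hc : ∃ j, J₀ ≤ j ∧ fam j = i ∧ x.length = sc j
      · obtain ⟨j, hj1, hj2, hj3⟩ := hc
        obtain ⟨⟨⟨q, hq1, hq2⟩, -⟩, hP⟩ := hC j hj1 hj2
        have hj : 2 ≤ sc j := by
          have := le_sc j
          omega
        match q, hq1, hq2 with
        | [], hq1, _ =>
          simp at hq1
          omega
        | [_], hq1, _ =>
          simp at hq1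
          omega
        | true :: y, hq1, hq2 =>
          exfalso
          have := hP y (by simpa using hq1)
          rw [this] at hq2
          exact Bool.noConfusion hq2
        | false :: true :: y, hq1, hq2 =>
          exfalso
          exact h (decide_eq_true ⟨j, hj1, hj2, hj3, y, by simpa using hq1, hq2⟩)
        | false :: false :: y, hq1, hq2 =>
          have hy : y.length + 2 = sc j := by simpa using hq1
          refine ⟨y, by omega, ?_⟩
          rw [if_pos ⟨j, hj1, hj2, hj3⟩, hq2, Bool.and_true, decide_eq_true_eq]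
          omega
      · refine ⟨[], by simp, ?_⟩
        rw [if_neg hc]
        rfl
    · rintro ⟨w, hw, hw2⟩ h
      obtain ⟨j, hj1, hj2, hj3, y, hy, hCy⟩ := of_decide_eq_true h
      rw [if_pos ⟨j, hj1, hj2, hj3⟩, Bool.and_eq_true, decide_eq_true_eq] at hw2
      exact (hC j hj1 hj2).1.2 ⟨⟨w, by omega, hw2.2⟩, ⟨y, hy, hCy⟩⟩

/-- every `tl i J₀` is a local function of the hidden set -/
theorem tl_local (i J₀ : ℕ) (x : List Bool) {C C' : Oracle} (h : Agree x.length C C') :
    tl i J₀ C x = tl i J₀ C' x := by
  unfold tl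
  rw [decide_eq_decide]
  constructor
  · rintro ⟨j, hj1, hj2, hj3, y, hy, hCy⟩
    refine ⟨j, hj1, hj2, hj3, y, hy, ?_⟩
    rw [← h _ (by simp; omega)]
    exact hCy
  · rintro ⟨j, hj1, hj2, hj3, y, hy, hCy⟩
    refine ⟨j, hj1, hj2, hj3, y, hy, ?_⟩
    rw [h _ (by simp; omega)]
    exact hCy

end Pool.Agent.PudOr
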