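import Mathlib
import Pool.Agent.PudOr.A1
import Pool.Agent.PudOr.A4
import Pool.Agent.PudOr.A5
import Pool.Agent.PudOr.A6a
import Pool.Agent.PudOr.A6b
import Pool.Agent.Helper22.OracleBaire

set_option autoImplicit false

/-!
# A7: the theorem
-/

namespace Pool.Agent.PudOr

open N68a2faeb N793a5b8e N487b59b3 Pool.Agent.Helper22
open scoped Classical

/-- the functionals -/
noncomputable def A7Th : Unit ⊕ Bool ⊕ (ℕ × ℕ × Bool) → Act → List Bool → Strat × (Oracle → Bool)
  | .inl _ => thTF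
  | .inr (.inl b) => thDP b
  | .inr (.inr (i, J, b)) => thT i J b

/-- the statements -/
def A7P (act : Act) : Ver ⊕ (Ver × Ver) ⊕ (Ver × Ver) ⊕
    (OracleProc (List Bool) (List Bool) × ℕ × ℕ × (Ver × Ver)) → List Bool → Oracle → Prop
  | .inl e => PTot act e
  | .inr (.inl e) => PDisj act e
  | .inr (.inr (.inl e)) => PGood act e
  | .inr (.inr (.inr (f, i, J, e))) => PRed act f i J e

theorem Agree.mono {n m : ℕ} {C C' : Oracle} (h : Agree m C C') (hn : n ≤ m) : Agree n C C' :=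
  fun q hq => h q (hq.trans hn)

theorem A7_local {act : Act} (hs : Short act) : ∀ i x, ∃ n, ∀ C C', Agree n C C' →
    (A7P act i x C ↔ A7P act i x C') := by
  rintro (e | e | e | ⟨f, i, J, e⟩) x
  · obtain ⟨q, hq⟩ := acc_local hs e
    exact ⟨q.eval x.length, fun C C' h => hq x C C' h⟩
  · obtain ⟨q, hq⟩ := acc_local hs e.1
    obtain ⟨q', hq'⟩ := acc_local hs e.2
    refine ⟨max (q.eval x.length) (q'.eval x.length), fun C C' h => ?_⟩
    have h1 := hq x C C' (h.mono (le_max_left _ _))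
    have h2 := hq' x C C' (h.mono (le_max_right _ _))
    show ¬ (Acc act e.1 x C ∧ Acc act e.2 x C) ↔ ¬ (Acc act e.1 x C' ∧ Acc act e.2 x C')
    rw [h1, h2]
  · obtain ⟨q, hq⟩ := acc_local hs e.1
    obtain ⟨q', hq'⟩ := acc_local hs e.2
    refine ⟨max (q.eval x.length) (q'.eval x.length), fun C C' h => ?_⟩
    have h1 := hq x C C' (h.mono (le_max_left _ _))
    have h2 := hq' x C C' (h.mono (le_max_right _ _))
    show (Acc act e.1 x C ↔ ¬ Acc act e.2 x C) ↔ (Acc act e.1 x C' ↔ ¬ Acc act e.2 x C')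
    rw [h1, h2]
  · exact red_local hs f i J e x

theorem Generic.anti_le {ι : Type} {P : ι → List Bool → Oracle → Prop} {C : Oracle}
    (G : Generic P C) {m n : ℕ} (h : m ≤ n) (C' : Oracle) (hC' : (G.p n).Comp C') :
    (G.p m).Comp C' := by
  induction n, h using Nat.le_induction with
  | base => exact hC'
  | succ n _ ih => exact ih (G.anti n C' hC')

theorem Generic.J_le {ι : Type} {P : ι → List Bool → Oracle → Prop} {C : Oracle}
    (G : Generic P C) {m n : ℕ} (h : m ≤ n) : (G.p m).J ≤ (G.p n).J := by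
  induction n, h using Nat.le_induction with
  | base => exact le_rfl
  | succ n _ ih => exact ih.trans (G.J_mono n)

theorem main : ∃ X : Oracle, (∃ T : TFNPo X, T.IsComplete) ∧ (∃ A B, CompletePair X A B) ∧
    ¬ ∃ L ∈ NPo X ∩ coNPo X, ∀ A ∈ NPo X ∩ coNPo X, ReducibleRel X A L := by
  obtain ⟨act, hs, hD⟩ := exists_act A7Th
  choose D hD using hD
  obtain ⟨C, hC, ⟨G⟩⟩ := exists_generic (A7P act) (A7_local hs)
  refine ⟨Xo act C, ?_, ?_, ?_⟩
  · refine tfnp_complete hs (hD (.inl ())) hC fun e he => ?_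
    obtain ⟨k, hk⟩ := G.force (.inl e) he
    exact ⟨G.p k, G.comp k, hk⟩
  · refine pair_complete hs (D := fun b => D (.inr (.inl b))) (fun b => hD (.inr (.inl b))) hC
      fun e he => ?_
    obtain ⟨k, hk⟩ := G.force (.inr (.inl e)) he
    exact ⟨G.p k, G.comp k, hk⟩
  · rintro ⟨L, ⟨⟨p₁, M₁, h₁⟩, ⟨p₀, M₀, h₀⟩⟩, hL⟩
    set e : Ver × Ver := ((M₁, p₁), (M₀, p₀)) with he
    have hacc1 : ∀ x, Acc act e.1 x C ↔ L x = true := fun x => (h₁ x).symm
    have hacc0 : ∀ x, Acc act e.2 x C ↔ ¬ L x = true := fun x => by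
      rw [← compl_true L x]
      exact (h₀ x).symm
    have hgood : ∀ x, A7P act (.inr (.inr (.inl e))) x C := fun x => by
      show Acc act e.1 x C ↔ ¬ Acc act e.2 x C
      rw [hacc1, hacc0, not_not]
    obtain ⟨k, hk⟩ := G.force _ hgood
    set i := (G.p k).m with hi
    set J₀ := (G.p (i + 1)).J with hJ₀
    have hT : tl i J₀ C ∈ NPo (Xo act C) ∩ coNPo (Xo act C) := by
      refine tl_mem (D := fun b => D (.inr (.inr (i, J₀, b))))
        (fun b => hD (.inr (.inr (i, J₀, b)))) fun j hj hf => ?_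
      have h1 := (G.comp (i + 1)).2 j hj
      refine ⟨h1.1, h1.2 ?_⟩
      have := G.m_le (i + 1)
      omega
    obtain ⟨f, hf⟩ := hL _ hT
    have hred : ∀ x, A7P act (.inr (.inr (.inr (f, i, J₀, e)))) x C := fun x => by
      refine ⟨fun h => ?_, fun h => ?_⟩
      · rw [hacc1, ← hf x]; exact h
      · rw [hacc0, ← hf x, h]; simp
    obtain ⟨k', hk'⟩ := G.force _ hred
    exact clash hs (c := G.p k) (c' := G.p (max k k'))
      (fun C' h => G.anti_le (le_max_left _ _) C' h) (G.J_le (le_max_left _ _))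
      (G.comp (max k k')) (le_of_eq hi.symm) J₀ e hk f
      (fun C' h => hk' C' (G.anti_le (le_max_right _ _) C' h))

end Pool.Agent.PudOr
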